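import Pool.Agent.H41.G4.Iso

/-!
Counting the graded matrices of determinant one modulo `X ^ r`.
-/

namespace H41G4

open Polynomial Matrix

variable {E : Type*} [Field E] {q : ℕ}

/-- The polynomial matrix with the coefficients `a 0, ..., a (r - 1)`. -/
noncomputable def io (q : ℕ) {r : ℕ} (a : Fin r → E) : Matrix (Fin 4) (Fin 4) E[X] :=
  ∑ n : Fin r, mon q (a n) n

/-- The coefficient sequences of determinant one modulo `X ^ r`. -/
def Dr (E : Type*) [Field E] (q r : ℕ) : Set (Fin r → E) :=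
  {a | (X ^ r : E[X]) ∣ (io q a).det - 1}

theorem io_coeff {r : ℕ} (a : Fin r → E) (k : Fin r) (i j : Fin 4) :
    (io q a i j).coeff k = el q (a k) k i j := by
  simp only [io, Matrix.sum_apply, finsetSum_coeff]
  rw [Finset.sum_eq_single k]
  · simp [mon]
  · intro n _ hn
    simp only [mon, coeff_C_mul, coeff_X_pow]
    rw [if_neg (fun h => hn (Fin.ext h.symm)), mul_zero]
  · intro h
    exact absurd (Finset.mem_univ _) h

theorem io_snoc {r : ℕ} (a : Fin r → E) (x : E) :
    io q (Fin.snoc a x : Fin (r + 1) → E) = io q a + mon q x r := by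
  simp only [io, Fin.sum_univ_castSucc, Fin.snoc_castSucc, Fin.snoc_last, Fin.val_castSucc,
    Fin.val_last]

theorem det_dvd_sub {R : Type*} [CommRing R] (A B : Matrix (Fin 4) (Fin 4) R) (d : R)
    (h : ∀ i j, d ∣ A i j - B i j) : d ∣ A.det - B.det := by
  have e : (Ideal.Quotient.mk (Ideal.span {d})).mapMatrix A =
      (Ideal.Quotient.mk (Ideal.span {d})).mapMatrix B := by
    ext i j
    exact Ideal.Quotient.eq.mpr (Ideal.mem_span_singleton.mpr (h i j))
  rw [← Ideal.mem_span_singleton, ← Ideal.Quotient.eq, RingHom.map_det, RingHom.map_det, e]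

theorem Dr_init {r : ℕ} (a : Fin r → E) (x : E)
    (h : (Fin.snoc a x : Fin (r + 1) → E) ∈ Dr E q (r + 1)) : a ∈ Dr E q r := by
  have h1 : (X ^ (r + 1) : E[X]) ∣ (io q a + mon q x r).det - 1 := by
    rw [← io_snoc]
    exact h
  have h2 : (X ^ r : E[X]) ∣ (io q a + mon q x r).det - (io q a).det := by
    apply det_dvd_sub
    intro i j
    rw [Matrix.add_apply, add_sub_cancel_left]
    simp only [mon]
    exact dvd_mul_left _ _
  have h3 : (X ^ r : E[X]) ∣ (io q a + mon q x r).det - 1 :=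
    (pow_dvd_pow X (Nat.le_succ r)).trans h1
  have h4 := dvd_sub h3 h2
  rw [sub_sub_sub_cancel_left] at h4
  rw [Dr, Set.mem_ofPred_eq]
  exact h4

theorem el_zero_diag (b : E) : el q b 0 = Matrix.diagonal (fun i : Fin 4 => b ^ q ^ (2 * (i : ℕ))) := by
  ext i j
  have e : ((i : ℕ) + 0) % 4 = (i : ℕ) := by omega
  simp only [el, e, Matrix.diagonal_apply]
  by_cases h : i = j
  · subst h; simp
  · rw [if_neg h, if_neg (fun h' => h (Fin.ext h'.symm))]

theorem el_zero_det (b : E) : (el q b 0).det = b * b ^ q ^ 2 * b ^ q ^ 4 * b ^ q ^ 6 := by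
  rw [el_zero_diag, Matrix.det_diagonal, Fin.prod_univ_four]
  simp

theorem io_zero {r : ℕ} (a : Fin (r + 1) → E) :
    (evalRingHom (0 : E)).mapMatrix (io q a) = el q (a 0) 0 := by
  ext i j
  rw [RingHom.mapMatrix_apply, Matrix.map_apply, coe_evalRingHom, ← coeff_zero_eq_eval_zero]
  exact io_coeff a 0 i j

theorem io_det_zero {r : ℕ} (a : Fin (r + 1) → E) :
    (io q a).det.coeff 0 = a 0 * a 0 ^ q ^ 2 * a 0 ^ q ^ 4 * a 0 ^ q ^ 6 := by
  rw [← el_zero_det, ← io_zero a, ← RingHom.map_det, coe_evalRingHom, coeff_zero_eq_eval_zero]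

theorem Dr_zero_nrm {r : ℕ} (a : Fin (r + 1) → E) (h : a ∈ Dr E q (r + 1)) :
    a 0 * a 0 ^ q ^ 2 * a 0 ^ q ^ 4 * a 0 ^ q ^ 6 = 1 := by
  have h1 : (X ^ (r + 1) : E[X]) ∣ (io q a).det - 1 := h
  have h2 : ((io q a).det - 1).coeff 0 = 0 := (X_pow_dvd_iff.mp h1) 0 (by omega)
  rw [coeff_sub, coeff_one_zero, sub_eq_zero, io_det_zero] at h2
  exact h2

theorem X_dvd_io {r : ℕ} (a : Fin (r + 1) → E) (i j : Fin 4) :
    (X : E[X]) ∣ (io q a - mon q (a 0) 0) i j := by
  rw [X_dvd_iff, Matrix.sub_apply, coeff_sub]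
  have := io_coeff (q := q) a 0 i j
  simp only [Fin.val_zero] at this
  rw [this]
  simp [mon]

theorem det_one_add_mon (y : E) (r : ℕ) (hr : 4 ∣ r + 1) :
    (X ^ (r + 2) : E[X]) ∣ (1 + mon q y (r + 1)).det - (1 + C (tf q y) * X ^ (r + 1)) := by
  have e1 : (1 + mon q y (r + 1)) =
      Matrix.diagonal (fun i : Fin 4 => 1 + C (y ^ q ^ (2 * (i : ℕ))) * X ^ (r + 1)) := by
    ext1 i j
    have e : ((i : ℕ) + (r + 1)) % 4 = (i : ℕ) := by omega
    simp only [Matrix.add_apply, Matrix.one_apply, mon, el, e, Matrix.diagonal_apply]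
    by_cases h : i = j
    · subst h; simp
    · rw [if_neg h, if_neg h, if_neg (fun h' => h (Fin.ext h'.symm))]
      simp
  rw [e1, Matrix.det_diagonal, Fin.prod_univ_four]
  refine (pow_dvd_pow X (show r + 2 ≤ (r + 1) + (r + 1) by omega)).trans ?_
  rw [pow_add]
  generalize (X : E[X]) ^ (r + 1) = T
  have e2 : C (tf q y) = C y + C (y ^ q ^ 2) + C (y ^ q ^ 4) + C (y ^ q ^ 6) := by
    simp only [tf, C_add]
  rw [e2]
  simp only [Fin.val_zero, Fin.val_one, Fin.val_two, mul_zero, pow_zero, pow_one, mul_one,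
    show ((3 : Fin 4) : ℕ) = 3 from rfl, show 2 * 2 = 4 from rfl, show 2 * 3 = 6 from rfl]
  generalize C y = a
  generalize C (y ^ q ^ 2) = b
  generalize C (y ^ q ^ 4) = c
  generalize C (y ^ q ^ 6) = d
  exact ⟨(a * b + a * c + a * d + b * c + b * d + c * d) + (a * b * c + a * b * d + a * c * d +
    b * c * d) * T + a * b * c * d * (T * T), by ring⟩

theorem det_step (h : Fr E q) {r : ℕ} (a : Fin (r + 1) → E) (ha : a 0 ≠ 0) (x : E)
    (hr : 4 ∣ r + 1) : (X ^ (r + 2) : E[X]) ∣ (io q a + mon q x (r + 1)).det -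
      (io q a).det * (1 + C (tf q ((a 0)⁻¹ * x)) * X ^ (r + 1)) := by
  set y := (a 0)⁻¹ * x with hy
  have hxy : mon q x (r + 1) = mon q (a 0) 0 * mon q y (r + 1) := by
    rw [mon_mul h, mul_zero, pow_zero, pow_one, zero_add, hy, mul_inv_cancel_left₀ ha]
  have h1 : (X ^ (r + 2) : E[X]) ∣ (io q a + mon q x (r + 1)).det -
      (io q a * (1 + mon q y (r + 1))).det := by
    apply det_dvd_sub
    intro i j
    have e1 : (io q a + mon q x (r + 1)) i j - (io q a * (1 + mon q y (r + 1))) i j =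
        -((io q a - mon q (a 0) 0) * mon q y (r + 1)) i j := by
      rw [Matrix.mul_add, Matrix.mul_one, Matrix.sub_mul, ← hxy]
      simp only [Matrix.add_apply, Matrix.sub_apply]
      ring
    rw [e1, dvd_neg, Matrix.mul_apply, show r + 2 = 1 + (r + 1) by ring, pow_add, pow_one]
    apply Finset.dvd_sum
    intro k _
    exact mul_dvd_mul (X_dvd_io a i k) (by simp only [mon]; exact dvd_mul_left _ _)
  rw [Matrix.det_mul] at h1
  have h2 := Dvd.dvd.mul_left (det_one_add_mon (q := q) y r hr) (io q a).det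
  have h3 := dvd_add h1 h2
  rw [show (io q a + mon q x (r + 1)).det - (io q a).det * (1 + mon q y (r + 1)).det +
    (io q a).det * ((1 + mon q y (r + 1)).det - (1 + C (tf q y) * X ^ (r + 1))) =
    (io q a + mon q x (r + 1)).det -
      (io q a).det * (1 + C (tf q y) * X ^ (r + 1)) by ring] at h3
  exact h3

theorem trace_eq (h : Fr E q) {r : ℕ} (a : Fin (r + 1) → E) (ha : a ∈ Dr E q (r + 1)) (x : E)
    (hr : 4 ∣ r + 1) (hx : (Fin.snoc a x : Fin (r + 1 + 1) → E) ∈ Dr E q (r + 1 + 1)) :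
    tf q ((a 0)⁻¹ * x) = -(io q a).det.coeff (r + 1) := by
  have hn := Dr_zero_nrm a ha
  have hb : a 0 ≠ 0 := by
    intro h; rw [h] at hn; simp at hn
  have hx' : (X ^ (r + 1 + 1) : E[X]) ∣ (io q (Fin.snoc a x : Fin (r + 1 + 1) → E)).det - 1 := hx
  rw [io_snoc] at hx'
  have h3 := dvd_sub hx' (det_step h a hb x hr)
  rw [sub_sub_sub_cancel_left] at h3
  have h4 := (X_pow_dvd_iff.mp h3) (r + 1) (by omega)
  rw [mul_add, mul_one, coeff_sub, coeff_add, ← mul_assoc, coeff_mul_X_pow', if_pos le_rfl,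
    Nat.sub_self, coeff_mul_C, io_det_zero, hn, one_mul, coeff_one, if_neg (by omega),
    sub_zero] at h4
  linear_combination h4

theorem fibre_card (h : Fr E q) [Fintype E] [DecidableEq E] (hq : 1 < q)
    (hcard : Fintype.card E = q ^ 8) {r : ℕ} (a : Fin (r + 1) → E) (ha : a ∈ Dr E q (r + 1))
    [DecidablePred fun x : E => (Fin.snoc a x : Fin (r + 1 + 1) → E) ∈ Dr E q (r + 1 + 1)] :
    (Finset.univ.filter (fun x : E => (Fin.snoc a x : Fin (r + 1 + 1) → E) ∈
      Dr E q (r + 1 + 1))).card ≤ q ^ (if 4 ∣ (r + 1) then 6 else 8) := by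
  split_ifs with h3
  · have hn := Dr_zero_nrm a ha
    have hb : a 0 ≠ 0 := by
      intro h; rw [h] at hn; simp at hn
    rcases Finset.eq_empty_or_nonempty (Finset.univ.filter (fun x : E =>
      (Fin.snoc a x : Fin (r + 1 + 1) → E) ∈ Dr E q (r + 1 + 1))) with h0 | ⟨x0, hx0⟩
    · rw [h0, Finset.card_empty]
      exact Nat.zero_le _
    · refine le_trans ?_ (V_card_le (E := E) hq)
      apply Finset.card_le_card_of_injOn (fun x => (a 0)⁻¹ * x - (a 0)⁻¹ * x0)
      · intro x hx
        have h1 := trace_eq h a ha x h3 (Finset.mem_filter.mp hx).2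
        have h2 := trace_eq h a ha x0 h3 (Finset.mem_filter.mp hx0).2
        refine Finset.mem_coe.mpr (Finset.mem_filter.mpr ⟨Finset.mem_univ _, ?_⟩)
        rw [tf_sub h, h1, h2, sub_self]
      · intro x _ x' _ hxx
        have h1 : (a 0)⁻¹ * x = (a 0)⁻¹ * x' := sub_left_injective hxx
        exact mul_left_cancel₀ (inv_ne_zero hb) h1
  · calc _ ≤ (Finset.univ : Finset E).card := Finset.card_filter_le _ _
      _ = q ^ 8 := by rw [Finset.card_univ, hcard]

theorem Dr_card (h : Fr E q) [Fintype E] (hq : 1 < q) (hcard : Fintype.card E = q ^ 8) (r : ℕ) :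
    Nat.card (Dr E q (r + 1)) ≤ (1 + q ^ 2 + q ^ 4 + q ^ 6) * q ^ (8 * r - 2 * (r / 4)) := by
  classical
  have hconv : ∀ r, Nat.card (Dr E q r) =
      (Finset.univ.filter (fun a : Fin r → E => a ∈ Dr E q r)).card := by
    intro r
    rw [Nat.card_eq_fintype_card, Fintype.card_subtype]
  induction r with
  | zero =>
    rw [hconv]
    have : (Finset.univ.filter (fun a : Fin (0 + 1) → E => a ∈ Dr E q (0 + 1))).card ≤
        (nthRoots (1 + q ^ 2 + q ^ 4 + q ^ 6) (1 : E)).toFinset.card := by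
      apply Finset.card_le_card_of_injOn (fun a => a 0)
      · intro a ha
        have ha' := Dr_zero_nrm a (Finset.mem_filter.mp ha).2
        simp only [Finset.mem_coe, Multiset.mem_toFinset]
        rw [mem_nthRoots (by omega), ← ha', pow_add, pow_add, pow_add, pow_one]
      · intro a _ b _ hab
        funext i
        have : i = 0 := by
          apply Fin.ext
          have := i.2
          omega
        rw [this]
        exact hab
    calc _ ≤ (nthRoots (1 + q ^ 2 + q ^ 4 + q ^ 6) (1 : E)).toFinset.card := this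
      _ ≤ Multiset.card (nthRoots (1 + q ^ 2 + q ^ 4 + q ^ 6) (1 : E)) :=
        Multiset.toFinset_card_le _
      _ ≤ 1 + q ^ 2 + q ^ 4 + q ^ 6 := card_nthRoots _ _
      _ = _ := by simp
  | succ r ih =>
    rw [hconv] at ih ⊢
    have h1 : (Finset.univ.filter (fun a : Fin (r + 1 + 1) → E => a ∈ Dr E q (r + 1 + 1))).card
        ≤ q ^ (if 4 ∣ (r + 1) then 6 else 8) *
          (Finset.univ.filter (fun a : Fin (r + 1) → E => a ∈ Dr E q (r + 1))).card := by
      apply Finset.card_le_mul_card_image_of_maps_to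
        (f := fun a : Fin (r + 1 + 1) → E => (Fin.init a : Fin (r + 1) → E))
      · intro a ha
        have ha' := (Finset.mem_filter.mp ha).2
        rw [← Fin.snoc_init_self a] at ha'
        exact Finset.mem_filter.mpr ⟨Finset.mem_univ _, Dr_init _ _ ha'⟩
      · intro b hb
        have hb' := (Finset.mem_filter.mp hb).2
        refine le_trans ?_ (fibre_card h hq hcard b hb')
        apply Finset.card_le_card_of_injOn (fun a => a (Fin.last (r + 1)))
        · intro a ha
          have ha1 := Finset.mem_filter.mp ha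
          have ha2 := (Finset.mem_filter.mp ha1.1).2
          rw [← Fin.snoc_init_self a, ha1.2] at ha2
          exact Finset.mem_coe.mpr (Finset.mem_filter.mpr ⟨Finset.mem_univ _, ha2⟩)
        · intro a ha a' ha' haa
          have h2 := (Finset.mem_filter.mp ha).2
          have h3 := (Finset.mem_filter.mp ha').2
          rw [← Fin.snoc_init_self a, ← Fin.snoc_init_self a', h2, h3]
          simp only at haa
          rw [haa]
    calc _ ≤ _ := h1
      _ ≤ q ^ (if 4 ∣ (r + 1) then 6 else 8) *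
          ((1 + q ^ 2 + q ^ 4 + q ^ 6) * q ^ (8 * r - 2 * (r / 4))) :=
        Nat.mul_le_mul_left _ ih
      _ = (1 + q ^ 2 + q ^ 4 + q ^ 6) *
          q ^ ((if 4 ∣ (r + 1) then 6 else 8) + (8 * r - 2 * (r / 4))) := by
        rw [pow_add]; ring
      _ = _ := by
        congr 2
        split_ifs <;> omega

end H41G4
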