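import Mathlib

/-!
Elements `a Π ^ n` of a cyclic algebra of degree four, as matrices, and graded matrices of
polynomials.
-/

namespace H41G4

open Polynomial Matrix

/-- The properties of the power map `x ↦ x ^ q` that are used. -/
structure Fr (E : Type*) [Field E] (q : ℕ) : Prop where
  pos : 0 < q
  add : ∀ x y : E, (x + y) ^ q = x ^ q + y ^ q
  per : ∀ x : E, x ^ q ^ 8 = x

variable {E : Type*} [Field E] {q : ℕ}

theorem Fr.add_pow (h : Fr E q) (n : ℕ) (x y : E) : (x + y) ^ q ^ n = x ^ q ^ n + y ^ q ^ n := by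
  induction n with
  | zero => simp
  | succ n ih => rw [pow_succ, pow_mul, ih, h.add, ← pow_mul, ← pow_mul]

theorem Fr.zero_pow (h : Fr E q) (n : ℕ) : (0 : E) ^ q ^ n = 0 :=
  _root_.zero_pow (pow_pos h.pos n).ne'

theorem Fr.sum_pow (h : Fr E q) (n : ℕ) {ι : Type*} (s : Finset ι) (f : ι → E) :
    (∑ i ∈ s, f i) ^ q ^ n = ∑ i ∈ s, f i ^ q ^ n := by
  classical
  induction s using Finset.induction_on with
  | empty => simp [h.zero_pow]
  | insert a s ha ih => rw [Finset.sum_insert ha, Finset.sum_insert ha, h.add_pow, ih]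

theorem Fr.per_add (h : Fr E q) (n : ℕ) (x : E) : x ^ q ^ (n + 8) = x ^ q ^ n := by
  rw [pow_add, pow_mul, h.per]

theorem Fr.per_mod (h : Fr E q) (n : ℕ) (x : E) : x ^ q ^ (n % 8) = x ^ q ^ n := by
  conv_rhs => rw [← Nat.mod_add_div n 8]
  generalize n / 8 = m
  induction m with
  | zero => simp
  | succ m ih => rw [show n % 8 + 8 * (m + 1) = n % 8 + 8 * m + 8 by ring, h.per_add, ← ih]

/-- `el q a n` is the matrix of `a Π ^ n` at `X = 1`. -/
def el (q : ℕ) (a : E) (n : ℕ) : Matrix (Fin 4) (Fin 4) E :=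
  fun i j => if (j : ℕ) = ((i : ℕ) + n) % 4 then a ^ q ^ (2 * (i : ℕ)) else 0

theorem el_add (h : Fr E q) (a b : E) (n : ℕ) : el q (a + b) n = el q a n + el q b n := by
  ext i j
  simp only [el, Matrix.add_apply]
  split_ifs
  · exact h.add_pow _ _ _
  · simp

theorem el_zero (h : Fr E q) (n : ℕ) : el q (0 : E) n = 0 := by
  ext i j
  simp only [el, Matrix.zero_apply]
  split_ifs
  · exact h.zero_pow _
  · rfl

theorem el_sum (h : Fr E q) {ι : Type*} (s : Finset ι) (f : ι → E) (n : ℕ) :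
    el q (∑ i ∈ s, f i) n = ∑ i ∈ s, el q (f i) n := by
  classical
  induction s using Finset.induction_on with
  | empty => simp [el_zero h]
  | insert a s ha ih => rw [Finset.sum_insert ha, Finset.sum_insert ha, el_add h, ih]

theorem el_mod (a : E) (n : ℕ) : el q a (n + 4) = el q a n := by
  ext i j
  simp only [el]
  rw [show (i : ℕ) + (n + 4) = (i : ℕ) + n + 4 by ring, Nat.add_mod_right]

theorem per_mod4 (h : Fr E q) (n : ℕ) (x : E) : x ^ q ^ (2 * (n % 4)) = x ^ q ^ (2 * n) := by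
  have : (2 * n) % 8 = 2 * (n % 4) := by omega
  rw [← this, h.per_mod]

theorem el_mul (h : Fr E q) (a b : E) (m n : ℕ) :
    el q a m * el q b n = el q (a * b ^ q ^ (2 * m)) (m + n) := by
  ext i j
  rw [Matrix.mul_apply]
  have hk : ((i : ℕ) + m) % 4 < 4 := Nat.mod_lt _ (by norm_num)
  rw [Finset.sum_eq_single (⟨((i : ℕ) + m) % 4, hk⟩ : Fin 4)]
  · have e : (((i : ℕ) + m) % 4 + n) % 4 = ((i : ℕ) + (m + n)) % 4 := by omega
    simp only [el, if_true, e]
    split_ifs
    · rw [per_mod4 h, mul_pow, ← pow_mul, ← pow_add, ← mul_add, Nat.add_comm (i : ℕ) m]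
    · simp
  · intro k _ hne
    simp only [el]
    rw [if_neg, zero_mul]
    intro h'
    exact hne (Fin.ext h')
  · intro h'
    exact absurd (Finset.mem_univ _) h'

theorem el_one (n : ℕ) : el q (1 : E) (4 * n) = 1 := by
  ext i j
  rw [Matrix.one_apply]
  have e : ((i : ℕ) + 4 * n) % 4 = (i : ℕ) := by omega
  simp only [el, one_pow, e]
  by_cases h : i = j
  · subst h; simp
  · rw [if_neg h, if_neg (fun h' => h (Fin.ext h'.symm))]

theorem el_det_ne (h : Fr E q) {a : E} (ha : a ≠ 0) (n : ℕ) : (el q a n).det ≠ 0 := by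
  have h1 : el q a n * el q ((a⁻¹) ^ q ^ (2 * (3 * n))) (3 * n) = 1 := by
    rw [el_mul h, ← pow_mul, ← pow_add]
    have e : (a⁻¹) ^ q ^ (2 * (3 * n) + 2 * n) = a⁻¹ := by
      rw [← h.per_mod]
      have : (2 * (3 * n) + 2 * n) % 8 = 0 := by omega
      rw [this, pow_zero, pow_one]
    rw [e, mul_inv_cancel₀ ha, show n + 3 * n = 4 * n by ring, el_one]
  intro h0
  have h2 := congrArg Matrix.det h1
  rw [Matrix.det_mul, h0, zero_mul, Matrix.det_one] at h2
  exact zero_ne_one h2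

/-- Graded matrices: the coefficient of `X ^ n` is of the form `el q a n`. -/
def Gr (q : ℕ) (A : Matrix (Fin 4) (Fin 4) E[X]) : Prop :=
  ∀ n, ∃ a : E, ∀ i j, (A i j).coeff n = el q a n i j

theorem Gr.add (h : Fr E q) {A B : Matrix (Fin 4) (Fin 4) E[X]} (hA : Gr q A) (hB : Gr q B) :
    Gr q (A + B) := by
  intro n
  obtain ⟨a, ha⟩ := hA n
  obtain ⟨b, hb⟩ := hB n
  refine ⟨a + b, fun i j => ?_⟩
  rw [Matrix.add_apply, coeff_add, ha, hb, el_add h, Matrix.add_apply]

theorem Gr.mul (h : Fr E q) {A B : Matrix (Fin 4) (Fin 4) E[X]} (hA : Gr q A) (hB : Gr q B) :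
    Gr q (A * B) := by
  choose a ha using hA
  choose b hb using hB
  intro n
  refine ⟨∑ p ∈ Finset.HasAntidiagonal.antidiagonal n, a p.1 * b p.2 ^ q ^ (2 * p.1),
    fun i j => ?_⟩
  rw [el_sum h, Matrix.mul_apply, finsetSum_coeff]
  simp_rw [coeff_mul]
  rw [Finset.sum_comm, Matrix.sum_apply]
  apply Finset.sum_congr rfl
  intro p hp
  rw [← Finset.HasAntidiagonal.mem_antidiagonal.mp hp, ← el_mul h, Matrix.mul_apply]
  apply Finset.sum_congr rfl
  intro k _
  rw [ha, hb]

/-- The matrix `a Π ^ n`. -/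
noncomputable def mon (q : ℕ) (a : E) (n : ℕ) : Matrix (Fin 4) (Fin 4) E[X] :=
  fun i j => C (el q a n i j) * X ^ n

theorem mon_gr (h : Fr E q) (a : E) (n : ℕ) : Gr q (mon q a n) := by
  intro m
  by_cases hm : m = n
  · subst hm
    exact ⟨a, fun i j => by simp [mon]⟩
  · exact ⟨0, fun i j => by
      rw [el_zero h]
      simp only [mon, coeff_C_mul, coeff_X_pow, Matrix.zero_apply, if_neg hm, mul_zero]⟩

theorem mon_mul (h : Fr E q) (a b : E) (m n : ℕ) :
    mon q a m * mon q b n = mon q (a * b ^ q ^ (2 * m)) (m + n) := by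
  ext1 i j
  rw [Matrix.mul_apply]
  simp only [mon]
  rw [← el_mul h, Matrix.mul_apply, map_sum, Finset.sum_mul]
  apply Finset.sum_congr rfl
  intro k _
  rw [C_mul, pow_add]
  ring

theorem mon_add (h : Fr E q) (a b : E) (n : ℕ) : mon q (a + b) n = mon q a n + mon q b n := by
  ext1 i j
  simp only [mon, el_add h, Matrix.add_apply, C_add]
  ring

theorem mon_zero (h : Fr E q) (n : ℕ) : mon q (0 : E) n = 0 := by
  ext1 i j
  simp [mon, el_zero h]

theorem mon_X4 (n : ℕ) :
    mon q (1 : E) (4 * n) = (X ^ (4 * n) : E[X]) • (1 : Matrix (Fin 4) (Fin 4) E[X]) := by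
  ext1 i j
  rw [Matrix.smul_apply, smul_eq_mul]
  simp only [mon, el_one, Matrix.one_apply]
  by_cases h : i = j
  · subst h; simp
  · simp [h]

theorem mon_one : mon q (1 : E) 0 = 1 := by
  have := mon_X4 (E := E) (q := q) 0
  simpa using this

theorem gr_one (h : Fr E q) : Gr q (1 : Matrix (Fin 4) (Fin 4) E[X]) := by
  rw [← mon_one (q := q)]
  exact mon_gr h _ _

theorem gr_zero (h : Fr E q) : Gr q (0 : Matrix (Fin 4) (Fin 4) E[X]) := by
  intro n
  exact ⟨0, fun i j => by rw [el_zero h]; simp⟩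

theorem mon_deg (a : E) (n : ℕ) (i j : Fin 4) : (mon q a n i j).natDegree ≤ n := by
  simp only [mon]
  exact natDegree_C_mul_X_pow_le _ _

end H41G4
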