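import Pool.Agent.H41.G4.Word

/-!
The word does not vanish at `X = 1`.
-/

namespace H41G4

open Polynomial Matrix

variable {E : Type*} [Field E] {q : ℕ}

/-- Evaluation at `X = 1`. -/
noncomputable def ev (A : Matrix (Fin 4) (Fin 4) E[X]) : Matrix (Fin 4) (Fin 4) E :=
  (evalRingHom (1 : E)).mapMatrix A

theorem ev_mul (A B : Matrix (Fin 4) (Fin 4) E[X]) : ev (A * B) = ev A * ev B :=
  map_mul _ _ _

theorem ev_mon (a : E) (n : ℕ) : ev (mon q a n) = el q a n := by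
  ext i j
  simp [ev, mon]

/-- The vector attached to a field element. -/
def vc (q : ℕ) (x : E) : Fin 4 → E := fun i => x ^ q ^ (2 * (i : ℕ))

theorem vc_ne {x : E} (hx : x ≠ 0) : vc q x ≠ 0 := by
  intro h
  have := congrFun h 0
  simp [vc, hx] at this

theorem vc_add (h : Fr E q) (x y : E) : vc q (x + y) = vc q x + vc q y := by
  ext i
  simp only [vc, Pi.add_apply]
  exact h.add_pow _ _ _

theorem el_vc (h : Fr E q) (a x : E) (n : ℕ) :
    el q a n *ᵥ vc q x = vc q (a * x ^ q ^ (2 * n)) := by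
  ext i
  rw [Matrix.mulVec, dotProduct]
  have hk : ((i : ℕ) + n) % 4 < 4 := Nat.mod_lt _ (by norm_num)
  rw [Finset.sum_eq_single (⟨((i : ℕ) + n) % 4, hk⟩ : Fin 4)]
  · simp only [el, vc, if_true]
    rw [per_mod4 h, mul_pow, ← pow_mul, ← pow_add, ← mul_add, Nat.add_comm (i : ℕ) n]
  · intro k _ hne
    simp only [el]
    rw [if_neg, zero_mul]
    intro h'
    exact hne (Fin.ext h')
  · intro h'
    exact absurd (Finset.mem_univ _) h'

theorem ev_sm (b : E) : ev (sm q b) = el q (b ^ q)⁻¹ 0 + el q b 1 := by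
  rw [← ev_mon, ← ev_mon]
  exact map_add _ _ _

theorem ev_tm (b : E) : ev (tm q b) = el q (b ^ q) 0 + el q (b * b ^ q * b ^ q ^ 3) 1 +
    el q (b * b ^ q * b ^ q ^ 2 * b ^ q ^ 3 * b ^ q ^ 5) 2 +
    el q (b * b ^ q * b ^ q ^ 2 * b ^ q ^ 3 * b ^ q ^ 4 * b ^ q ^ 5 * b ^ q ^ 7) 3 := by
  simp only [← ev_mon, ev, tm, map_add]

theorem sm_vc (h : Fr E q) (a x : E) :
    ev (sm q a) *ᵥ vc q x = vc q ((a ^ q)⁻¹ * x + a * x ^ q ^ 2) := by
  rw [ev_sm, Matrix.add_mulVec, el_vc h, el_vc h, vc_add h]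
  simp

/-- The value of the adjugate. -/
def th (q : ℕ) (b z : E) : E := b ^ q * z + b * b ^ q * b ^ q ^ 3 * z ^ q ^ 2 +
    b * b ^ q * b ^ q ^ 2 * b ^ q ^ 3 * b ^ q ^ 5 * z ^ q ^ 4 +
    b * b ^ q * b ^ q ^ 2 * b ^ q ^ 3 * b ^ q ^ 4 * b ^ q ^ 5 * b ^ q ^ 7 * z ^ q ^ 6

theorem tm_vc (h : Fr E q) (b z : E) : ev (tm q b) *ᵥ vc q z = vc q (th q b z) := by
  rw [ev_tm, Matrix.add_mulVec, Matrix.add_mulVec, Matrix.add_mulVec, el_vc h, el_vc h, el_vc h,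
    el_vc h, th, vc_add h, vc_add h, vc_add h]
  simp

/-- Fourth roots of one in characteristic two. -/
theorem pow_four_eq_one (h2 : (2 : E) = 0) {w : E} (hw : w ^ 4 = 1) : w = 1 := by
  have : (w - 1) ^ 4 = 0 := by
    linear_combination hw + (-2 * w ^ 3 + 3 * w ^ 2 - 2 * w + 1) * h2
  exact sub_eq_zero.mp (pow_eq_zero_iff (by norm_num) |>.mp this)

theorem nrm_ratio {a b : E} (ha : Good q a) (hb : Good q b) :
    (a / b) * (a / b) ^ q ^ 2 * (a / b) ^ q ^ 4 * (a / b) ^ q ^ 6 = 1 := by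
  have b0 := hb.ne
  have n1 := ha.nrm
  have n2 := hb.nrm
  simp only [div_pow]
  rw [div_mul_div_comm, div_mul_div_comm, div_mul_div_comm, n1, n2, div_one]

theorem Good.inj (h : Fr E q) (h2 : (2 : E) = 0) {a b : E} (ha : Good q a) (hb : Good q b)
    (hab : a * a ^ q = b * b ^ q) : a = b := by
  have a0 := ha.ne
  have b0 := hb.ne
  set w := a / b with hw
  have w0 : w ≠ 0 := div_ne_zero a0 b0
  have h1 : w * w ^ q = 1 := by
    rw [hw, div_pow, div_mul_div_comm, hab, div_self]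
    exact mul_ne_zero b0 (pow_ne_zero _ b0)
  have h3 : w ^ q ^ 2 = w := by
    have h4 : w ^ q * w ^ q ^ 2 = 1 := by
      have := congrArg (fun x => x ^ q) h1
      simp only [mul_pow, one_pow] at this
      rw [← pow_mul w q q, ← pow_two] at this
      exact this
    apply mul_left_cancel₀ (pow_ne_zero q w0)
    rw [h4, mul_comm, h1]
  have h5 : w ^ q ^ 4 = w := by
    have : w ^ q ^ 4 = (w ^ q ^ 2) ^ q ^ 2 := by rw [pp]
    rw [this, h3, h3]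
  have h6 : w ^ q ^ 6 = w := by
    have : w ^ q ^ 6 = (w ^ q ^ 4) ^ q ^ 2 := by rw [pp]
    rw [this, h5, h3]
  have h7 := nrm_ratio ha hb
  rw [← hw, h3, h5, h6] at h7
  have h8 : w = 1 := pow_four_eq_one h2 (by linear_combination h7)
  rw [hw, div_eq_one_iff_eq b0] at h8
  exact h8

theorem Good.inj' (h : Fr E q) (h2 : (2 : E) = 0) {a b : E} (ha : Good q a) (hb : Good q b)
    (hab : a ^ q ^ 2 * a ^ q ^ 7 = b ^ q ^ 2 * b ^ q ^ 7) : a = b := by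
  have a0 := ha.ne
  have b0 := hb.ne
  set w := a / b with hw
  have w0 : w ≠ 0 := div_ne_zero a0 b0
  have h1 : w ^ q ^ 2 * w ^ q ^ 7 = 1 := by
    rw [hw, div_pow, div_pow, div_mul_div_comm, hab, div_self]
    exact mul_ne_zero (pow_ne_zero _ b0) (pow_ne_zero _ b0)
  have hsh : ∀ i, w ^ q ^ (2 + i) * w ^ q ^ (7 + i) = 1 := by
    intro i
    have := congrArg (fun x => x ^ q ^ i) h1
    simp only [mul_pow, one_pow, pp] at this
    exact this
  have k8 : w ^ q ^ 8 = w := h.per w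
  have k9 : w ^ q ^ 9 = w ^ q ^ 1 := h.per_add 1 w
  have k10 : w ^ q ^ 10 = w ^ q ^ 2 := h.per_add 2 w
  have k11 : w ^ q ^ 11 = w ^ q ^ 3 := h.per_add 3 w
  have k12 : w ^ q ^ 12 = w ^ q ^ 4 := h.per_add 4 w
  have k13 : w ^ q ^ 13 = w ^ q ^ 5 := h.per_add 5 w
  have s0 := hsh 0
  have s3 := hsh 3
  have s6 := hsh 6
  have s1 := hsh 1
  have s5 := hsh 5
  have s2 := hsh 2
  norm_num at s0 s1 s2 s3 s5 s6
  rw [k10] at s3
  rw [k8, k13] at s6
  -- s0 : w2 * w7 = 1, s3 : w5 * w2 = 1, s6 : w * w5 = 1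
  have w2 : w ^ q ^ 2 = w := by
    have w5 : w ^ q ^ 5 ≠ 0 := pow_ne_zero _ w0
    apply mul_left_cancel₀ w5
    rw [s3, mul_comm, s6]
  have w4 : w ^ q ^ 4 = w := by
    have : w ^ q ^ 4 = (w ^ q ^ 2) ^ q ^ 2 := by rw [pp]
    rw [this, w2, w2]
  have w6 : w ^ q ^ 6 = w := by
    have : w ^ q ^ 6 = (w ^ q ^ 4) ^ q ^ 2 := by rw [pp]
    rw [this, w4, w2]
  have h7 := nrm_ratio ha hb
  rw [← hw, w2, w4, w6] at h7
  have h8 : w = 1 := pow_four_eq_one h2 (by linear_combination h7)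
  rw [hw, div_eq_one_iff_eq b0] at h8
  exact h8

/-- A nonzero vector of the kernel of a letter is mapped to a nonzero vector by another letter. -/
theorem step_s (h : Fr E q) (h2 : (2 : E) = 0) {a b x : E} (ha : Good q a) (hb : Good q b)
    (hab : a ≠ b) (hx : x ≠ 0) (hxb : x ^ q ^ 2 * (b * b ^ q) = x) :
    (a ^ q)⁻¹ * x + a * x ^ q ^ 2 ≠ 0 := by
  intro h0
  apply hab
  apply ha.inj h h2 hb
  have a1 : a ^ q ≠ 0 := pow_ne_zero _ ha.ne
  have x2 : x ^ q ^ 2 ≠ 0 := pow_ne_zero _ hx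
  have h3 : x + (a * a ^ q) * x ^ q ^ 2 = 0 := by
    have h4 := congrArg (fun t => a ^ q * t) h0
    simp only [mul_add, mul_zero] at h4
    rw [mul_inv_cancel_left₀ a1] at h4
    linear_combination h4
  apply mul_left_cancel₀ x2
  linear_combination h3 - hxb - x * h2

theorem el_tr (h : Fr E q) (a : E) (n : ℕ) (hn : n ≤ 4) (i j : Fin 4) :
    (el q a n j i) ^ q = el q ((a ^ q) ^ q ^ (2 * (4 - n))) (4 - n) i j := by
  simp only [el]
  by_cases hij : (i : ℕ) = ((j : ℕ) + n) % 4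
  · have hji : (j : ℕ) = ((i : ℕ) + (4 - n)) % 4 := by omega
    rw [if_pos hij, if_pos hji]
    rw [pp', pp1, pp]
    rw [← h.per_mod, ← h.per_mod (1 + 2 * (4 - n) + 2 * (i : ℕ))]
    congr 2
    omega
  · have hji : ¬ (j : ℕ) = ((i : ℕ) + (4 - n)) % 4 := by omega
    rw [if_neg hij, if_neg hji, _root_.zero_pow h.pos.ne']

/-- The conjugate transpose of a letter at `X = 1`. -/
def sg (q : ℕ) (b : E) : Matrix (Fin 4) (Fin 4) E := el q (b ^ q ^ 7) 3 + el q (b ^ q ^ 2)⁻¹ 0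

theorem sg_eq (h : Fr E q) (b : E) (i j : Fin 4) : (ev (sm q b) j i) ^ q = sg q b i j := by
  rw [ev_sm, Matrix.add_apply, h.add, el_tr h _ 0 (by norm_num), el_tr h _ 1 (by norm_num), sg,
    Matrix.add_apply, add_comm]
  have e1 : (b ^ q) ^ q ^ (2 * (4 - 1)) = b ^ q ^ 7 := by rw [pp1]
  have e2 : ((b ^ q)⁻¹ ^ q) ^ q ^ (2 * (4 - 0)) = (b ^ q ^ 2)⁻¹ := by
    rw [Nat.sub_zero, show 2 * 4 = 8 from rfl, h.per, inv_pow, ← pow_mul, ← pow_two]
  rw [e1, e2, Nat.sub_zero, show 4 - 1 = 3 from rfl]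
  have := el_mod (q := q) (b ^ q ^ 2)⁻¹ 0
  rw [zero_add] at this
  rw [this]

theorem rel1 (h : Fr E q) (b : E) (hb : Good q b) :
    sg q b * ev (um E q) * ev (sm q b) = ev (vm E q) := by
  rw [← rel h b hb, ev_mul, ev_mul, rv_sm]
  have : ev (mon q (b ^ q ^ 7) 3 + mon q (b ^ q ^ 2)⁻¹ 4) = sg q b := by
    have e1 : ev (mon q (b ^ q ^ 7) 3 + mon q (b ^ q ^ 2)⁻¹ 4) =
        ev (mon q (b ^ q ^ 7) 3) + ev (mon q (b ^ q ^ 2)⁻¹ 4) := map_add _ _ _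
    have e2 := el_mod (q := q) (b ^ q ^ 2)⁻¹ 0
    rw [zero_add] at e2
    rw [e1, ev_mon, ev_mon, e2]
    rfl
  rw [this]

theorem ev_vm (i j : Fin 4) : ev (vm E q) i j = 1 := by
  have : ev (vm E q) = el q 1 3 + el q 1 4 + el q 1 5 + el q 1 6 := by
    simp only [← ev_mon, ev, vm, map_add]
  rw [this]
  fin_cases i <;> fin_cases j <;> simp [el, Matrix.add_apply]

theorem ev_vm_mulVec (y : Fin 4 → E) (i : Fin 4) : (ev (vm E q) *ᵥ y) i = ∑ j, y j := by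
  rw [Matrix.mulVec, dotProduct]
  simp only [ev_vm, one_mul]

/-- The hermitian form on the image of a letter. -/
theorem form_eq (h : Fr E q) (b : E) (hb : Good q b) (y : Fin 4 → E) :
    (fun i => ((ev (sm q b) *ᵥ y) i) ^ q) ⬝ᵥ (ev (um E q) *ᵥ (ev (sm q b) *ᵥ y)) =
      (∑ j, y j) ^ q * (∑ j, y j) := by
  have e1 : (fun i => ((ev (sm q b) *ᵥ y) i) ^ q) = (fun j => y j ^ q) ᵥ* sg q b := by
    ext i
    rw [Matrix.mulVec, dotProduct, Matrix.vecMul, dotProduct]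
    have := h.sum_pow 1 Finset.univ (fun j => ev (sm q b) i j * y j)
    rw [pow_one] at this
    rw [this]
    apply Finset.sum_congr rfl
    intro j _
    rw [mul_pow, sg_eq h, mul_comm]
  rw [e1, ← Matrix.dotProduct_mulVec, Matrix.mulVec_mulVec, Matrix.mulVec_mulVec,
    rel1 h b hb, dotProduct]
  simp only [ev_vm_mulVec]
  rw [← Finset.sum_mul]
  have := h.sum_pow 1 Finset.univ y
  rw [pow_one] at this
  rw [this]

/-- The equation `S y = v` is solvable if the first coordinate of `T v` vanishes. -/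
theorem solv (h2 : (2 : E) = 0) (b : E) (hb : Good q b) (z : E) (hz : th q b z = 0) :
    ∃ y : Fin 4 → E, ev (sm q b) *ᵥ y = vc q z := by
  have b0 := hb.ne
  have b1 : b ^ q ≠ 0 := pow_ne_zero _ b0
  have b3 : b ^ q ^ 3 ≠ 0 := pow_ne_zero _ b0
  have b5 : b ^ q ^ 5 ≠ 0 := pow_ne_zero _ b0
  have b7 : b ^ q ^ 7 ≠ 0 := pow_ne_zero _ b0
  set y3 : E := b ^ q ^ 7 * z ^ q ^ 6 with hy3
  set y2 : E := b ^ q ^ 5 * (z ^ q ^ 4 + b ^ q ^ 4 * y3) with hy2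
  set y1 : E := b ^ q ^ 3 * (z ^ q ^ 2 + b ^ q ^ 2 * y2) with hy1
  refine ⟨![0, y1, y2, y3], ?_⟩
  have e : ev (sm q b) = !![(b ^ q)⁻¹, b, 0, 0; 0, (b ^ q ^ 3)⁻¹, b ^ q ^ 2, 0;
      0, 0, (b ^ q ^ 5)⁻¹, b ^ q ^ 4; b ^ q ^ 6, 0, 0, (b ^ q ^ 7)⁻¹] := by
    rw [ev_sm]
    ext i j
    fin_cases i <;> fin_cases j <;> simp [el, Matrix.add_apply, pp1]
  rw [e]
  unfold th at hz
  ext i
  fin_cases i
  · simp [Matrix.mulVec, dotProduct, Fin.sum_univ_four, vc]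
    apply mul_left_cancel₀ b1
    rw [hy1, hy2, hy3]
    linear_combination hz - (b ^ q * z) * h2
  · simp [Matrix.mulVec, dotProduct, Fin.sum_univ_four, vc]
    rw [hy1]
    field_simp
    linear_combination (b ^ q ^ 2 * y2) * h2
  · simp [Matrix.mulVec, dotProduct, Fin.sum_univ_four, vc]
    rw [hy2]
    field_simp
    linear_combination (b ^ q ^ 4 * y3) * h2
  · simp [Matrix.mulVec, dotProduct, Fin.sum_univ_four, vc]
    rw [hy3]
    field_simp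

theorem sg_vc (h : Fr E q) (b Z : E) :
    sg q b *ᵥ vc q Z = vc q (b ^ q ^ 7 * Z ^ q ^ 6 + (b ^ q ^ 2)⁻¹ * Z) := by
  rw [sg, Matrix.add_mulVec, el_vc h, el_vc h, vc_add h]
  simp

theorem um_vc (h : Fr E q) (z : E) : ev (um E q) *ᵥ vc q z = vc q (z + z ^ q ^ 2) := by
  have : ev (um E q) = el q 1 0 + el q 1 1 := by
    rw [← ev_mon, ← ev_mon]
    exact map_add _ _ _
  rw [this, Matrix.add_mulVec, el_vc h, el_vc h, vc_add h]
  simp

theorem vc_eq_zero {x : E} (hx : vc q x = 0) : x = 0 := by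
  by_contra h
  exact vc_ne h hx

/-- The degenerate case. -/
theorem degen (h : Fr E q) (h2 : (2 : E) = 0) {c c' x : E} (hc : Good q c) (hc' : Good q c')
    (hcc : c ≠ c') (hx : x ≠ 0) (hxc : x ^ q ^ 2 * (c' * c' ^ q) = x)
    (hz : ((c ^ q)⁻¹ * x + c * x ^ q ^ 2) + ((c ^ q)⁻¹ * x + c * x ^ q ^ 2) ^ q ^ 2 = 0) :
    False := by
  apply hcc
  apply hc.inj h h2 hc'
  have c0 := hc.ne
  have d0 := hc'.ne
  have hA := hc.eqn
  have hB := hc'.eqn
  -- names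
  obtain ⟨c1, hc1⟩ : ∃ t, t = c ^ q := ⟨_, rfl⟩
  obtain ⟨c2, hc2⟩ : ∃ t, t = c ^ q ^ 2 := ⟨_, rfl⟩
  obtain ⟨c3, hc3⟩ : ∃ t, t = c ^ q ^ 3 := ⟨_, rfl⟩
  obtain ⟨c4, hc4⟩ : ∃ t, t = c ^ q ^ 4 := ⟨_, rfl⟩
  obtain ⟨d1, hd1⟩ : ∃ t, t = c' ^ q := ⟨_, rfl⟩
  obtain ⟨d2, hd2⟩ : ∃ t, t = c' ^ q ^ 2 := ⟨_, rfl⟩
  obtain ⟨d3, hd3⟩ : ∃ t, t = c' ^ q ^ 3 := ⟨_, rfl⟩
  obtain ⟨d4, hd4⟩ : ∃ t, t = c' ^ q ^ 4 := ⟨_, rfl⟩
  have c1' : c1 ≠ 0 := hc1 ▸ pow_ne_zero _ c0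
  have c2' : c2 ≠ 0 := hc2 ▸ pow_ne_zero _ c0
  have c3' : c3 ≠ 0 := hc3 ▸ pow_ne_zero _ c0
  have c4' : c4 ≠ 0 := hc4 ▸ pow_ne_zero _ c0
  have d1' : d1 ≠ 0 := hd1 ▸ pow_ne_zero _ d0
  have d2' : d2 ≠ 0 := hd2 ▸ pow_ne_zero _ d0
  have d3' : d3 ≠ 0 := hd3 ▸ pow_ne_zero _ d0
  have d4' : d4 ≠ 0 := hd4 ▸ pow_ne_zero _ d0
  rw [← hc1, ← hc3, ← hc4] at hA
  rw [← hd1, ← hd3, ← hd4] at hB
  -- the value of `x ^ q ^ 2`
  have hx2 : x ^ q ^ 2 = x / (c' * d1) := by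
    rw [← hd1] at hxc
    field_simp
    linear_combination hxc
  have hx4 : x ^ q ^ 4 = x / (c' * d1) / (d2 * d3) := by
    have : x ^ q ^ 4 = (x ^ q ^ 2) ^ q ^ 2 := by rw [pp]
    rw [this, hx2, div_pow, mul_pow, hx2, hd1, pp1, hd2, hd3]
  have hz2 : ((c ^ q)⁻¹ * x + c * x ^ q ^ 2) ^ q ^ 2 =
      c3⁻¹ * (x / (c' * d1)) + c2 * (x / (c' * d1) / (d2 * d3)) := by
    rw [h.add_pow, mul_pow, mul_pow, inv_pow, pp1, pp, hx2, ← hx4, hc3, hc2]
  rw [hz2, hx2, ← hc1] at hz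
  -- the first relation
  set A := c * c1 with hAdef
  set B := c' * d1 with hBdef
  have I1 : c1 * (c2 * c3 + d2 * d3) = c3 * (d2 * d3) * (A + B) := by
    have h3 : x * (c1⁻¹ + c / B + (c3⁻¹ / B + c2 / B / (d2 * d3))) = 0 := by
      rw [← hz]
      ring
    have h4 := (mul_eq_zero.mp h3).resolve_left hx
    have hB0 : B ≠ 0 := mul_ne_zero d0 d1'
    field_simp at h4
    linear_combination h4 - (c3 * (d2 * d3) * (A + B)) * h2
  have I2 : c1 * c2 * (c2 * c3 + d2 * d3) = (c2 * c3) * (d2 * d3) * (c * c1 + c' * d1) := by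
    rw [← hAdef, ← hBdef]
    linear_combination c2 * I1
  have q1 : c1 ^ q = c2 := by rw [hc1, hc2, ← pow_mul, ← pow_two]
  have q2 : c2 ^ q = c3 := by rw [hc2, hc3, pp']
  have q3 : c3 ^ q = c4 := by rw [hc3, hc4, pp']
  have r1 : d1 ^ q = d2 := by rw [hd1, hd2, ← pow_mul, ← pow_two]
  have r2 : d2 ^ q = d3 := by rw [hd2, hd3, pp']
  have r3 : d3 ^ q = d4 := by rw [hd3, hd4, pp']
  have I3 : c2 * c3 * (c3 * c4 + d3 * d4) = (c3 * c4) * (d3 * d4) * (c1 * c2 + d1 * d2) := by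
    have := congrArg (fun t => t ^ q) I2
    simp only [mul_pow, h.add, q1, q2, q3, r1, r2, r3] at this
    rw [← hc1, ← hd1] at this
    exact this
  have GA : (c * c1) * (c2 * c3) * (c3 * c4) + (c1 * c2) * (c3 * c4) + c2 * c3 =
      (c2 * c3) * (c3 * c4) := by linear_combination (c2 * c3) * hA
  have GB : (c' * d1) * (d2 * d3) * (d3 * d4) + (d1 * d2) * (d3 * d4) + d2 * d3 =
      (d2 * d3) * (d3 * d4) := by linear_combination (d2 * d3) * hB
  obtain ⟨A1, hA1⟩ : ∃ t, t = c1 * c2 := ⟨_, rfl⟩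
  obtain ⟨A2, hA2⟩ : ∃ t, t = c2 * c3 := ⟨_, rfl⟩
  obtain ⟨A3, hA3⟩ : ∃ t, t = c3 * c4 := ⟨_, rfl⟩
  obtain ⟨B1, hB1⟩ : ∃ t, t = d1 * d2 := ⟨_, rfl⟩
  obtain ⟨B2, hB2⟩ : ∃ t, t = d2 * d3 := ⟨_, rfl⟩
  obtain ⟨B3, hB3⟩ : ∃ t, t = d3 * d4 := ⟨_, rfl⟩
  rw [← hA2, ← hA3, ← hA1, ← hAdef] at GA
  rw [← hB2, ← hB3, ← hB1, ← hBdef] at GB
  rw [← hA1, ← hA2, ← hB2, ← hAdef, ← hBdef] at I2
  rw [← hA2, ← hA3, ← hA1, ← hB3, ← hB1] at I3
  have A20 : A2 ≠ 0 := by rw [hA2]; exact mul_ne_zero c2' c3'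
  have J : A3 * (A1 + B2 + B2 * B) = B2 := by
    apply mul_left_cancel₀ A20
    linear_combination A3 * I2 + B2 * GA + (A1 * A3 * B2) * h2 +
      (A2 * A3 * B2 + A2 * A3 * B2 * B - A2 * B2 - 2 * A3 * A1 * B2) * h2
  have K : A3 * B3 * (A1 + B1) = B2 * (A3 + B3) := by
    linear_combination B3 * J - A3 * GB + (A3 * B3 * B1 - A3 * B3 * B2) * h2
  have L : (A2 + B2) * (A3 + B3) = 0 := by
    linear_combination I3 - K + (B2 * (A3 + B3)) * h2 +
      (-(B2 * A3) - B2 * B3 + A3 * B3 * A1 + A3 * B3 * B1) * h2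
  -- the conclusion
  have inj : ∀ s t : E, s ^ q + t ^ q = 0 → s + t = 0 := by
    intro s t hst
    rw [← h.add] at hst
    exact pow_eq_zero_iff h.pos.ne' |>.mp hst
  have hfin : A + B = 0 := by
    rcases mul_eq_zero.mp L with L | L
    · apply inj
      apply inj
      have e1 : (A ^ q) ^ q = A2 := by
        simp only [hAdef, mul_pow, ← hc1, q1, q2, hA2]
      have e2 : (B ^ q) ^ q = B2 := by
        simp only [hBdef, mul_pow, ← hd1, r1, r2, hB2]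
      rw [e1, e2]
      exact L
    · apply inj
      apply inj
      apply inj
      have e1 : ((A ^ q) ^ q) ^ q = A3 := by
        simp only [hAdef, mul_pow, ← hc1, q1, q2, q3, hA3]
      have e2 : ((B ^ q) ^ q) ^ q = B3 := by
        simp only [hBdef, mul_pow, ← hd1, r1, r2, r3, hB3]
      rw [e1, e2]
      exact L
  rw [← hc1, ← hd1, ← hAdef, ← hBdef]
  linear_combination hfin - B * h2

/-- The adjugate of another letter does not vanish on an isotropic vector. -/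
theorem step_t (h : Fr E q) (h2 : (2 : E) = 0) {b c c' x : E} (hb : Good q b) (hc : Good q c)
    (hc' : Good q c') (hbc : b ≠ c) (hcc : c ≠ c') (hx : x ≠ 0)
    (hxc : x ^ q ^ 2 * (c' * c' ^ q) = x) :
    th q b ((c ^ q)⁻¹ * x + c * x ^ q ^ 2) ≠ 0 := by
  intro h0
  set z := (c ^ q)⁻¹ * x + c * x ^ q ^ 2 with hz
  obtain ⟨y, hy⟩ := solv h2 b hb z h0
  have hv : ev (sm q c) *ᵥ vc q x = vc q z := sm_vc h c x
  have hker : ev (sm q c') *ᵥ vc q x = 0 := by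
    rw [sm_vc h]
    have d1 : c' ^ q ≠ 0 := pow_ne_zero _ hc'.ne
    have : (c' ^ q)⁻¹ * x + c' * x ^ q ^ 2 = 0 := by
      apply mul_left_cancel₀ d1
      rw [mul_zero, mul_add, mul_inv_cancel_left₀ d1]
      linear_combination hxc + x * h2
    rw [this]
    ext i
    simp only [vc, Pi.zero_apply]
    exact h.zero_pow _
  have hJ : ev (vm E q) *ᵥ vc q x = 0 := by
    rw [← rel1 h c' hc', ← Matrix.mulVec_mulVec, hker, Matrix.mulVec_zero]
  have hTr : ∑ j, vc q x j = 0 := by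
    have := congrFun hJ 0
    rw [ev_vm_mulVec] at this
    exact this
  have f1 := form_eq h b hb y
  have f2 := form_eq h c hc (vc q x)
  rw [hy] at f1
  rw [hv, hTr, mul_zero] at f2
  rw [f2] at f1
  have hsum : ∑ j, y j = 0 := by
    rcases mul_eq_zero.mp f1.symm with h3 | h3
    · exact pow_eq_zero_iff h.pos.ne' |>.mp h3
    · exact h3
  have hJy : ev (vm E q) *ᵥ y = 0 := by
    ext i
    rw [ev_vm_mulVec, hsum]
    rfl
  have g1 : sg q b *ᵥ (ev (um E q) *ᵥ vc q z) = 0 := by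
    rw [← hy, Matrix.mulVec_mulVec, Matrix.mulVec_mulVec, rel1 h b hb, hJy]
  have g2 : sg q c *ᵥ (ev (um E q) *ᵥ vc q z) = 0 := by
    rw [← hv, Matrix.mulVec_mulVec, Matrix.mulVec_mulVec, rel1 h c hc, hJ]
  rw [um_vc h, sg_vc h] at g1 g2
  have k1 := vc_eq_zero g1
  have k2 := vc_eq_zero g2
  by_cases hZ : z + z ^ q ^ 2 = 0
  · exact degen h h2 hc hc' hcc hx hxc hZ
  · apply hbc
    apply hb.inj' h h2 hc
    set Z := z + z ^ q ^ 2 with hZdef
    have b2 : b ^ q ^ 2 ≠ 0 := pow_ne_zero _ hb.ne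
    have c2 : c ^ q ^ 2 ≠ 0 := pow_ne_zero _ hc.ne
    have Z6 : Z ^ q ^ 6 ≠ 0 := pow_ne_zero _ hZ
    have m1 : b ^ q ^ 2 * b ^ q ^ 7 * Z ^ q ^ 6 = Z := by
      have := congrArg (fun t => b ^ q ^ 2 * t) k1
      simp only [mul_zero, mul_add] at this
      rw [mul_inv_cancel_left₀ b2] at this
      linear_combination this - Z * h2
    have m2 : c ^ q ^ 2 * c ^ q ^ 7 * Z ^ q ^ 6 = Z := by
      have := congrArg (fun t => c ^ q ^ 2 * t) k2
      simp only [mul_zero, mul_add] at this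
      rw [mul_inv_cancel_left₀ c2] at this
      linear_combination this - Z * h2
    exact mul_right_cancel₀ Z6 (m1.trans m2.symm)

theorem ker_of_tm (h : Fr E q) (h2 : (2 : E) = 0) {b : E} (hb : Good q b) (z : E) :
    (th q b z) ^ q ^ 2 * (b * b ^ q) = th q b z := by
  have h1 : ev (sm q b) *ᵥ (ev (tm q b) *ᵥ vc q z) = 0 := by
    rw [Matrix.mulVec_mulVec, ← ev_mul, sm_tm_self h h2 b hb]
    have : ev (((1 + X ^ 4 : E[X])) • (1 : Matrix (Fin 4) (Fin 4) E[X])) = 0 := by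
      ext i j
      simp only [ev, RingHom.mapMatrix_apply, Matrix.map_apply, Matrix.smul_apply, smul_eq_mul,
        coe_evalRingHom, eval_mul, eval_add, eval_one, eval_pow, eval_X, one_pow,
        Matrix.zero_apply]
      have : (1 : E) + 1 = 0 := by linear_combination h2
      rw [this, zero_mul]
    rw [this, Matrix.zero_mulVec]
  rw [tm_vc h, sm_vc h] at h1
  have h3 := vc_eq_zero h1
  have b1 : b ^ q ≠ 0 := pow_ne_zero _ hb.ne
  have h4 := congrArg (fun t => b ^ q * t) h3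
  simp only [mul_zero, mul_add] at h4
  rw [mul_inv_cancel_left₀ b1] at h4
  linear_combination h4 - (th q b z) * h2

/-- The word does not vanish at `X = 1`. -/
theorem ev_wp_ne (h : Fr E q) (h2 : (2 : E) = 0) (a b : ℕ → E) (ha : ∀ i, Good q (a i))
    (hb : ∀ i, Good q (b i)) (hab : ∀ i, a i ≠ b i) (hba : ∀ i, b i ≠ a (i + 1)) (n : ℕ)
    (c c' x : E) (hc : Good q c) (hc' : Good q c') (hcc : c ≠ c')
    (hcb : ∀ m, n = m + 1 → b m ≠ c) (hx : x ≠ 0) (hxc : x ^ q ^ 2 * (c' * c' ^ q) = x) :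
    ev (wp q a b n) *ᵥ vc q ((c ^ q)⁻¹ * x + c * x ^ q ^ 2) ≠ 0 := by
  induction n generalizing c c' x with
  | zero =>
    have : ev (wp q a b 0) = 1 := map_one _
    rw [this, Matrix.one_mulVec]
    exact vc_ne (step_s h h2 hc hc' hcc hx hxc)
  | succ n ih =>
    simp only [wp]
    rw [ev_mul, ev_mul, ← Matrix.mulVec_mulVec, ← Matrix.mulVec_mulVec, tm_vc h, sm_vc h]
    have h3 := step_t h h2 (hb n) hc hc' (hcb n rfl) hcc hx hxc
    have h4 := ker_of_tm h h2 (hb n) ((c ^ q)⁻¹ * x + c * x ^ q ^ 2)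
    exact ih (a n) (b n) _ (ha n) (hb n) (hab n) (fun m hm => by subst hm; exact hba m) h3 h4

end H41G4
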