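import Pool.Agent.H41.G4.Grp

/-!
Numerics.
-/

namespace H41G4

open SimpleGraph

/-- Graphs of girth more than `2 l`. -/
theorem main (l e : ℕ) (he : e = 8 * (l / 2) + 6 - 2 * (l / 8)) (n : ℕ)
    (hn : 4 * 2 ^ e ≤ n) :
    ∃ Γ : SimpleGraph (Fin n), (∀ j, 3 ≤ j → j ≤ 2 * l → (cycleGraph j).Free Γ) ∧
      (1 / 64 : ℝ) * (n : ℝ) ^ (1 + 3 / (e : ℝ)) ≤ Γ.edgeSet.ncard := by
  have he6 : 6 ≤ e := by omega
  -- choice of `m`
  obtain ⟨m, hm1, hm2, hm3⟩ : ∃ m, 1 ≤ m ∧ 4 * (2 ^ m) ^ e ≤ n ∧ n < 4 * (2 * 2 ^ m) ^ e := by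
    have h1 : 1 < 2 ^ e := Nat.one_lt_pow (by omega) (by norm_num)
    have h2 : n / 4 ≠ 0 := by
      have : 4 ≤ n := le_trans (by have := Nat.one_le_pow e 2 (by norm_num); omega) hn
      omega
    refine ⟨Nat.log (2 ^ e) (n / 4), ?_, ?_, ?_⟩
    · apply (Nat.le_log_iff_pow_le h1 h2).mpr
      rw [pow_one]
      omega
    · have := Nat.pow_log_le_self (2 ^ e) h2
      rw [← pow_mul, mul_comm e, pow_mul] at this
      omega
    · have := Nat.lt_pow_succ_log_self h1 (n / 4)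
      rw [pow_succ, ← pow_mul, mul_comm e, pow_mul, mul_comm, ← mul_pow] at this
      omega
  obtain ⟨E, _, _, h2, hFr, hcard, hgood⟩ := field_exists m hm1
  set q := 2 ^ m with hq
  have hq2 : 2 ≤ q := by
    calc 2 = 2 ^ 1 := by norm_num
      _ ≤ 2 ^ m := Nat.pow_le_pow_right (by norm_num) hm1
  obtain ⟨s, hs⟩ : ∃ s, s = l / 2 := ⟨_, rfl⟩
  obtain ⟨hfin, hHc⟩ := HH_card hFr h2 (by omega) hcard s
  have hH1 : 1 ≤ Nat.card (HH hFr h2 (s + 1)) := Nat.card_pos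
  set g0 := Nat.card (HH hFr h2 (s + 1)) with hg0
  have hg : 2 * g0 ≤ 4 * q ^ e := by
    have h3 : 1 + q ^ 2 + q ^ 4 + q ^ 6 ≤ 2 * q ^ 6 := by
      have e1 : 4 ≤ q ^ 2 := by nlinarith
      have e2 : q ^ 4 * 4 ≤ q ^ 6 := by
        calc q ^ 4 * 4 ≤ q ^ 4 * q ^ 2 := Nat.mul_le_mul_left _ e1
          _ = q ^ 6 := by ring
      have e3 : q ^ 2 * 4 ≤ q ^ 4 := by
        calc q ^ 2 * 4 ≤ q ^ 2 * q ^ 2 := Nat.mul_le_mul_left _ e1
          _ = q ^ 4 := by ring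
      omega
    have h4 : g0 ≤ 2 * q ^ e := by
      calc g0 ≤ (1 + q ^ 2 + q ^ 4 + q ^ 6) * q ^ (8 * s - 2 * (s / 4)) := hHc
        _ ≤ (2 * q ^ 6) * q ^ (8 * s - 2 * (s / 4)) := Nat.mul_le_mul_right _ h3
        _ = 2 * q ^ (6 + (8 * s - 2 * (s / 4))) := by rw [pow_add]; ring
        _ = 2 * q ^ e := by
          congr 2
          omega
    omega
  set M := n / (2 * g0) with hM
  have hM1 : 1 ≤ M := (Nat.one_le_div_iff (by omega)).mpr (hg.trans hm2)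
  have hM2 : 2 * (g0 * M) ≤ n := by
    have := Nat.div_mul_le_self n (2 * g0)
    calc 2 * (g0 * M) = n / (2 * g0) * (2 * g0) := by rw [hM]; ring
      _ ≤ n := this
  have hne : Nonempty {ρ : E // Good q ρ} := by
    have : 0 < Nat.card {ρ : E // Good q ρ} := lt_of_lt_of_le (by positivity) hgood
    exact (Nat.card_pos_iff.mp this).1
  obtain ⟨i0⟩ := hne
  obtain ⟨Γ, hfree, hedge⟩ := H41GT.bicayley_copies (HH hFr h2 (s + 1)) (sU hFr h2 (s + 1))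
    (sU_inj hFr h2 (s + 1) (by omega)) i0
    (fun i j => Subgroup.subset_closure ⟨i, j, rfl⟩) l
    (fun j hj1 hj2 a b hab hba => wg_ne hFr h2 (s + 1) j hj1 (by omega) a b hab hba)
    M hM1 n hM2
  refine ⟨Γ, hfree, ?_⟩
  -- numerics
  have hM3 : n < 2 * g0 * (M + 1) := by
    have := Nat.lt_mul_div_succ n (show 0 < 2 * g0 by omega)
    simpa [hM] using this
  have hM4 : n ≤ 4 * (g0 * M) := by
    have : 2 * g0 * (M + 1) ≤ 2 * g0 * (2 * M) := Nat.mul_le_mul_left _ (by omega)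
    calc n ≤ 2 * g0 * (M + 1) := hM3.le
      _ ≤ 2 * g0 * (2 * M) := this
      _ = 4 * (g0 * M) := by ring
  have hM5 : (n : ℝ) * q ^ 3 ≤ 4 * Γ.edgeSet.ncard := by
    have : n * q ^ 3 ≤ 4 * Γ.edgeSet.ncard := by
      calc n * q ^ 3 ≤ 4 * (g0 * M) * q ^ 3 := Nat.mul_le_mul_right _ hM4
        _ = 4 * (g0 * M * q ^ 3) := by ring
        _ ≤ 4 * (g0 * M * Nat.card {ρ : E // Good q ρ}) :=
          Nat.mul_le_mul_left _ (Nat.mul_le_mul_left _ hgood)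
        _ ≤ _ := Nat.mul_le_mul_left _ hedge
    exact_mod_cast this
  have hn0 : (0 : ℝ) < n := by
    have : 0 < n := lt_of_lt_of_le (by positivity) hn
    exact_mod_cast this
  have heR : (0 : ℝ) < e := by exact_mod_cast (show 0 < e by omega)
  have h6 : (n : ℝ) ^ (3 / (e : ℝ)) ≤ 16 * q ^ 3 := by
    have h7 : (n : ℝ) ^ 3 ≤ (16 * q ^ 3 : ℝ) ^ e := by
      have h8 : (n : ℝ) ≤ 4 * (2 * q) ^ e := by exact_mod_cast hm3.le
      have h9 : (64 : ℝ) ≤ 2 ^ e := by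
        calc (64 : ℝ) = 2 ^ 6 := by norm_num
          _ ≤ 2 ^ e := pow_le_pow_right₀ (by norm_num) he6
      calc (n : ℝ) ^ 3 ≤ (4 * (2 * q) ^ e) ^ 3 := by gcongr
        _ = 64 * (8 * q ^ 3 : ℝ) ^ e := by
          rw [mul_pow, ← pow_mul, mul_comm e 3, pow_mul, mul_pow]
          norm_num
        _ ≤ 2 ^ e * (8 * q ^ 3 : ℝ) ^ e := by gcongr
        _ = (16 * q ^ 3 : ℝ) ^ e := by rw [← mul_pow]; ring
    calc (n : ℝ) ^ (3 / (e : ℝ)) = ((n : ℝ) ^ 3) ^ (1 / (e : ℝ)) := by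
          rw [← Real.rpow_natCast, ← Real.rpow_mul hn0.le]
          congr 1
          push_cast
          ring
      _ ≤ ((16 * q ^ 3 : ℝ) ^ e) ^ (1 / (e : ℝ)) := by
          apply Real.rpow_le_rpow (by positivity) h7
          positivity
      _ = 16 * q ^ 3 := by
          rw [one_div, Real.pow_rpow_inv_natCast (by positivity) (by omega)]
  rw [Real.rpow_add hn0, Real.rpow_one]
  have h9 : (n : ℝ) * (n : ℝ) ^ (3 / (e : ℝ)) ≤ n * (16 * q ^ 3) := by gcongr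
  nlinarith

end H41G4
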