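import Pool.Agent.H41.G4.Params

/-!
The number of good parameters: isotropic elements of trace zero, by the second moment.
-/

namespace H41G4

open Polynomial Matrix

variable {E : Type*} [Field E] {q : ℕ}

theorem tf_add (h : Fr E q) (x y : E) : tf q (x + y) = tf q x + tf q y := by
  simp only [tf, h.add_pow]
  ring

theorem tf_sub (h : Fr E q) (x y : E) : tf q (x - y) = tf q x - tf q y := by
  have := tf_add h (x - y) y
  rw [sub_add_cancel] at this
  rw [this, add_sub_cancel_right]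

theorem tf_fix (h : Fr E q) (x : E) : tf q x ^ q ^ 2 = tf q x := by
  simp only [tf, h.add_pow, pp]
  rw [h.per]
  ring

theorem qf_fix (h : Fr E q) (h2 : (2 : E) = 0) {x : E} (hx : tf q x = 0) :
    qf q x ^ q = qf q x := by
  have h1 := h.add_pow 1
  simp only [pow_one] at h1
  have h3 : qf q x ^ q = x ^ q * x ^ q ^ 4 + x ^ q ^ 2 * x ^ q ^ 5 + x ^ q ^ 3 * x ^ q ^ 6 +
      x ^ q ^ 3 * x ^ q ^ 4 := by
    simp only [qf, h1, mul_pow, pp']
    rw [← pow_mul x q q, ← pow_two]
  rw [h3]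
  simp only [tf] at hx
  simp only [qf]
  linear_combination x ^ q ^ 3 * hx - (x * x ^ q ^ 3 + x ^ q ^ 2 * x ^ q ^ 3) * h2

theorem zero_pow_q (h : Fr E q) : (0 : E) ^ q = 0 := by
  have := h.zero_pow (E := E) 1
  rwa [pow_one] at this

theorem tf_zero (h : Fr E q) : tf q (0 : E) = 0 := by
  simp [tf, h.zero_pow]

theorem qf_zero (h : Fr E q) : qf q (0 : E) = 0 := by
  simp [qf, h.zero_pow]

/-- The number of elements of trace zero. -/
theorem V_card_le [Fintype E] [DecidableEq E] (hq : 1 < q) :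
    (Finset.univ.filter (fun x : E => tf q x = 0)).card ≤ q ^ 6 := by
  classical
  have hmono : ∀ {i j : ℕ}, i ≤ j → q ^ i ≤ q ^ j := fun hij => Nat.pow_le_pow_right (by omega) hij
  let p0 : E[X] := X ^ q ^ 4 + X ^ q ^ 2 + X
  let p : E[X] := X ^ q ^ 6 + p0
  have hlow : p0.natDegree ≤ q ^ 4 := by
    refine (natDegree_add_le _ _).trans (max_le ((natDegree_add_le _ _).trans (max_le ?_ ?_)) ?_)
    · rw [natDegree_X_pow]
    · rw [natDegree_X_pow]; exact hmono (by norm_num)
    · rw [natDegree_X]; exact Nat.one_le_pow _ _ (by omega)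
  have hlt : q ^ 4 < q ^ 6 := Nat.pow_lt_pow_right hq (by norm_num)
  have hp : p ≠ 0 := by
    intro hp0
    have := congrArg (fun r => coeff r (q ^ 6)) hp0
    simp only [p, coeff_add, coeff_X_pow, coeff_zero, if_true] at this
    rw [coeff_eq_zero_of_natDegree_lt (hlow.trans_lt hlt), add_zero] at this
    exact one_ne_zero this
  have hdeg : p.natDegree ≤ q ^ 6 := by
    refine (natDegree_add_le _ _).trans (max_le ?_ ?_)
    · rw [natDegree_X_pow]
    · exact hlow.trans hlt.le
  have hsubset : (Finset.univ.filter (fun x : E => tf q x = 0)) ⊆ p.roots.toFinset := by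
    intro x hx
    have hx' := (Finset.mem_filter.mp hx).2
    rw [Multiset.mem_toFinset, mem_roots hp, IsRoot.def]
    simp only [p, p0, eval_add, eval_pow, eval_X]
    simp only [tf] at hx'
    linear_combination hx'
  calc _ ≤ p.roots.toFinset.card := Finset.card_le_card hsubset
    _ ≤ Multiset.card p.roots := Multiset.toFinset_card_le _
    _ ≤ p.natDegree := card_roots' p
    _ ≤ q ^ 6 := hdeg

theorem fix_card [Fintype E] [DecidableEq E] (N : ℕ) (hN : 1 < N) (S : Finset E)
    (hS : ∀ x ∈ S, x ^ N = x) : S.card ≤ N := by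
  classical
  let p : E[X] := X ^ N - X
  have hp : p ≠ 0 := by
    intro hp0
    have := congrArg (fun r => coeff r N) hp0
    simp only [p, coeff_sub, coeff_X_pow, coeff_X, coeff_zero, if_true] at this
    rw [if_neg (by omega)] at this
    simp at this
  have hdeg : p.natDegree ≤ N := by
    refine (natDegree_sub_le _ _).trans (max_le ?_ ?_)
    · rw [natDegree_X_pow]
    · rw [natDegree_X]; omega
  have hsubset : S ⊆ p.roots.toFinset := by
    intro x hx
    rw [Multiset.mem_toFinset, mem_roots hp, IsRoot.def]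
    simp only [p, eval_sub, eval_pow, eval_X, hS x hx, sub_self]
  calc S.card ≤ p.roots.toFinset.card := Finset.card_le_card hsubset
    _ ≤ Multiset.card p.roots := Multiset.toFinset_card_le _
    _ ≤ p.natDegree := card_roots' p
    _ ≤ N := hdeg

theorem V_card_ge (h : Fr E q) [Fintype E] [DecidableEq E] (hq : 1 < q)
    (hcard : Fintype.card E = q ^ 8) :
    q ^ 6 ≤ (Finset.univ.filter (fun x : E => tf q x = 0)).card := by
  classical
  have him : (Finset.univ.image (tf q : E → E)).card ≤ q ^ 2 := by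
    apply fix_card (q ^ 2) (Nat.one_lt_pow (by norm_num) hq)
    intro x hx
    obtain ⟨y, _, rfl⟩ := Finset.mem_image.mp hx
    exact tf_fix h y
  have hfib : (Finset.univ : Finset E).card ≤
      (Finset.univ.filter (fun y : E => tf q y = 0)).card *
        (Finset.univ.image (tf q : E → E)).card := by
    apply Finset.card_le_mul_card_image
    intro b hb
    obtain ⟨y, _, rfl⟩ := Finset.mem_image.mp hb
    apply Finset.card_le_card_of_injOn (fun x => x - y)
    · intro x hx
      simp only [Finset.coe_filter, Finset.mem_univ, true_and, Set.mem_ofPred_eq] at hx ⊢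
      rw [tf_sub h, hx, sub_self]
    · intro x _ x' _ hxx
      exact sub_left_injective hxx
  rw [Finset.card_univ, hcard] at hfib
  have h3 : q ^ 6 * q ^ 2 ≤ (Finset.univ.filter (fun y : E => tf q y = 0)).card * q ^ 2 := by
    rw [← pow_add]
    exact hfib.trans (Nat.mul_le_mul_left _ him)
  exact Nat.le_of_mul_le_mul_right h3 (pow_pos (by omega) 2)

/-- The polarization. -/
theorem qf_polar (h : Fr E q) (y d : E) : qf q (y + d) - qf q y =
    d ^ q ^ 2 * y ^ q ^ 5 + d ^ q * y ^ q ^ 4 + (d + d ^ q ^ 2) * y ^ q ^ 3 +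
      (d ^ q ^ 5 + d ^ q ^ 3) * y ^ q ^ 2 + d ^ q ^ 4 * y ^ q + d ^ q ^ 3 * y + qf q d := by
  have h1 := h.add_pow 1
  simp only [pow_one] at h1
  simp only [qf, h.add_pow, h1]
  ring

/-- Pairs of equal value. -/
theorem pairs_card (h : Fr E q) [Fintype E] [DecidableEq E] (hq : 1 < q) (V : Finset E)
    (hV : V = Finset.univ.filter (fun x : E => tf q x = 0)) :
    ((V ×ˢ V).filter (fun p => qf q p.1 = qf q p.2)).card ≤ V.card + (V.card - 1) * q ^ 5 := by
  classical
  have hmem : ∀ x, x ∈ V ↔ tf q x = 0 := by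
    intro x
    rw [hV]
    simp
  have h0 : (0 : E) ∈ V := by rw [hmem, tf_zero h]
  have hmaps : ∀ p ∈ (V ×ˢ V).filter (fun p => qf q p.1 = qf q p.2), p.1 - p.2 ∈ V := by
    intro p hp
    have h1 := Finset.mem_product.mp (Finset.mem_filter.mp hp).1
    rw [hmem, tf_sub h, (hmem _).mp h1.1, (hmem _).mp h1.2, sub_self]
  rw [Finset.card_eq_sum_card_fiberwise hmaps, ← Finset.add_sum_erase _ _ h0]
  apply Nat.add_le_add
  · apply Finset.card_le_card_of_injOn (fun p => p.1)
    · intro p hp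
      exact (Finset.mem_product.mp (Finset.mem_filter.mp (Finset.mem_filter.mp hp).1).1).1
    · intro p hp p' hp' hpp
      have h1 := (Finset.mem_filter.mp hp).2
      have h2 := (Finset.mem_filter.mp hp').2
      simp only at hpp
      rw [sub_eq_zero] at h1 h2
      exact Prod.ext hpp (by rw [← h1, ← h2, hpp])
  · rw [← Finset.card_erase_of_mem h0, ← smul_eq_mul]
    apply Finset.sum_le_card_nsmul
    intro d hd
    have hd0 : d ≠ 0 := (Finset.mem_erase.mp hd).1
    refine le_trans ?_ (sol5 hq (d ^ q ^ 3) (d ^ q ^ 4) (d ^ q ^ 5 + d ^ q ^ 3) (d + d ^ q ^ 2)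
      (d ^ q) (d ^ q ^ 2) (qf q d) (pow_ne_zero _ hd0))
    apply Finset.card_le_card_of_injOn (fun p => p.2)
    · intro p hp
      have h1 := (Finset.mem_filter.mp (Finset.mem_filter.mp hp).1).2
      have h2 := (Finset.mem_filter.mp hp).2
      have h3 : p.1 = p.2 + d := by rw [← h2]; ring
      have h4 := qf_polar h p.2 d
      rw [← h3, h1, sub_self] at h4
      exact Finset.mem_coe.mpr (Finset.mem_filter.mpr ⟨Finset.mem_univ _, h4.symm⟩)
    · intro p hp p' hp' hpp
      have h1 := (Finset.mem_filter.mp hp).2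
      have h2 := (Finset.mem_filter.mp hp').2
      simp only at hpp
      refine Prod.ext ?_ hpp
      have h3 : p.1 = p.2 + d := by rw [← h1]; ring
      have h4 : p'.1 = p'.2 + d := by rw [← h2]; ring
      rw [h3, h4, hpp]

/-- The number of isotropic elements of trace zero. -/
theorem iso_card (h : Fr E q) (h2 : (2 : E) = 0) [Fintype E] [DecidableEq E] (hq : 1 < q)
    (hcard : Fintype.card E = q ^ 8) :
    q ^ 5 < (Finset.univ.filter (fun x : E => tf q x = 0 ∧ qf q x = 0)).card + q ^ 3 := by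
  classical
  obtain ⟨V, hV⟩ : ∃ V : Finset E, V = Finset.univ.filter (fun x : E => tf q x = 0) := ⟨_, rfl⟩
  have hmem : ∀ x, x ∈ V ↔ tf q x = 0 := by
    intro x
    rw [hV]
    simp
  have h0 : (0 : E) ∈ V := by rw [hmem, tf_zero h]
  have hVc : V.card = q ^ 6 := by
    rw [hV]
    exact le_antisymm (V_card_le hq) (V_card_ge h hq hcard)
  have hp := pairs_card h hq V hV
  rw [hVc] at hp
  let N : E → ℕ := fun t => (V.filter (fun x => qf q x = t)).card
  have hF : (V.image (qf q)).card ≤ q := by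
    apply fix_card q hq
    intro x hx
    obtain ⟨y, hy, rfl⟩ := Finset.mem_image.mp hx
    exact qf_fix h h2 ((hmem _).mp hy)
  have hsum1 : ∑ t ∈ V.image (qf q), N t = q ^ 6 := by
    rw [← hVc]
    exact (Finset.card_eq_sum_card_image (qf q) V).symm
  have hsum2 : ∑ t ∈ V.image (qf q), N t ^ 2 =
      ((V ×ˢ V).filter (fun p => qf q p.1 = qf q p.2)).card := by
    have hmaps : ∀ p ∈ (V ×ˢ V).filter (fun p => qf q p.1 = qf q p.2),
        qf q p.1 ∈ V.image (qf q) := by
      intro p hp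
      exact Finset.mem_image_of_mem _ (Finset.mem_product.mp (Finset.mem_filter.mp hp).1).1
    rw [Finset.card_eq_sum_card_fiberwise hmaps]
    apply Finset.sum_congr rfl
    intro t _
    rw [pow_two, ← Finset.card_product]
    congr 1
    ext p
    simp only [Finset.mem_product, Finset.mem_filter]
    constructor
    · rintro ⟨⟨a1, a2⟩, a3, a4⟩
      exact ⟨⟨⟨a1, a3⟩, a2.trans a4.symm⟩, a2⟩
    · rintro ⟨⟨⟨a1, a3⟩, a5⟩, a2⟩
      exact ⟨⟨a1, a2⟩, a3, a5.symm.trans a2⟩
  have hN0 : (Finset.univ.filter (fun x : E => tf q x = 0 ∧ qf q x = 0)).card = N 0 := by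
    simp only [N]
    congr 1
    ext x
    simp only [Finset.mem_filter, Finset.mem_univ, true_and, hmem]
  rw [hN0]
  have h0F : (0 : E) ∈ V.image (qf q) := Finset.mem_image.mpr ⟨0, h0, qf_zero h⟩
  have hkey : ((N 0 : ℤ) - q ^ 5) ^ 2 ≤ q ^ 6 - q ^ 5 := by
    calc ((N 0 : ℤ) - q ^ 5) ^ 2 ≤ ∑ t ∈ V.image (qf q), ((N t : ℤ) - q ^ 5) ^ 2 :=
          Finset.single_le_sum (f := fun t => ((N t : ℤ) - q ^ 5) ^ 2)
            (fun t _ => sq_nonneg _) h0F
      _ = ∑ t ∈ V.image (qf q), (N t : ℤ) ^ 2 - 2 * q ^ 5 * ∑ t ∈ V.image (qf q), (N t : ℤ) +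
            (V.image (qf q)).card * q ^ 10 := by
          have : ∀ t ∈ V.image (qf q), ((N t : ℤ) - q ^ 5) ^ 2 =
              (N t : ℤ) ^ 2 - 2 * q ^ 5 * (N t : ℤ) + q ^ 10 := by
            intro t _
            ring
          rw [Finset.sum_congr rfl this, Finset.sum_add_distrib, Finset.sum_sub_distrib,
            ← Finset.mul_sum, Finset.sum_const, nsmul_eq_mul]
      _ ≤ (q ^ 6 + (q ^ 6 - 1) * q ^ 5) - 2 * q ^ 5 * q ^ 6 + q * q ^ 10 := by
          have e1 : ∑ t ∈ V.image (qf q), (N t : ℤ) ^ 2 ≤ q ^ 6 + (q ^ 6 - 1) * q ^ 5 := by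
            have h3 : ∑ t ∈ V.image (qf q), N t ^ 2 ≤ q ^ 6 + (q ^ 6 - 1) * q ^ 5 := by
              rw [hsum2]; exact hp
            have h4 : 1 ≤ q ^ 6 := Nat.one_le_pow _ _ (by omega)
            have h5 : ((q ^ 6 - 1 : ℕ) : ℤ) = (q : ℤ) ^ 6 - 1 := by
              rw [Nat.cast_sub h4]
              push_cast
              ring
            have h6 : ((∑ t ∈ V.image (qf q), N t ^ 2 : ℕ) : ℤ) ≤
                ((q ^ 6 + (q ^ 6 - 1) * q ^ 5 : ℕ) : ℤ) := Int.ofNat_le.mpr h3
            rw [Nat.cast_add, Nat.cast_mul, h5] at h6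
            push_cast at h6
            exact h6
          have e2 : ∑ t ∈ V.image (qf q), (N t : ℤ) = q ^ 6 := by
            have := congrArg (fun n : ℕ => (n : ℤ)) hsum1
            push_cast at this
            exact this
          have e3 : ((V.image (qf q)).card : ℤ) * q ^ 10 ≤ q * q ^ 10 := by
            have : ((V.image (qf q)).card : ℤ) ≤ q := by exact_mod_cast hF
            gcongr
          rw [e2]
          linarith
      _ = q ^ 6 - q ^ 5 := by ring
  by_contra hcon
  rw [not_lt] at hcon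
  have hcon' : (N 0 : ℤ) + q ^ 3 ≤ q ^ 5 := by exact_mod_cast hcon
  have hq0 : (0 : ℤ) < q := by exact_mod_cast (show 0 < q by omega)
  have h7 : ((q : ℤ) ^ 3) ^ 2 ≤ ((N 0 : ℤ) - q ^ 5) ^ 2 := by
    have h8 : (q : ℤ) ^ 3 ≤ q ^ 5 - N 0 := by linarith
    have h9 : ((N 0 : ℤ) - q ^ 5) ^ 2 = (q ^ 5 - N 0) ^ 2 := by ring
    rw [h9]
    exact pow_le_pow_left₀ (by positivity) h8 2
  have h10 : (0 : ℤ) < q ^ 5 := by positivity
  have h11 : ((q : ℤ) ^ 3) ^ 2 = q ^ 6 := by ring
  linarith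

/-- There are at least `q ^ 3` good parameters. -/
theorem good_card (h : Fr E q) (h2 : (2 : E) = 0) [Fintype E] (k : ℕ) (hk : 4 * k = q ^ 2)
    (hq : 1 < q) (hcard : Fintype.card E = q ^ 8) : q ^ 3 ≤ Nat.card {b : E // Good q b} := by
  classical
  obtain ⟨S, hS⟩ : ∃ S : Finset E, S = Finset.univ.filter (fun x : E => tf q x = 0 ∧ qf q x = 0) :=
    ⟨_, rfl⟩
  have h1 : q ^ 5 < S.card + q ^ 3 := by
    rw [hS]
    exact iso_card h h2 hq hcard
  set S0 := S.erase 0 with hS0
  have hS0c : q ^ 3 * (q ^ 2 - 1) ≤ S0.card := by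
    have h3 : S.card - 1 ≤ S0.card := Finset.pred_card_le_card_erase
    have h4 : q ^ 3 * (q ^ 2 - 1) + q ^ 3 = q ^ 5 := by
      have : 1 ≤ q ^ 2 := Nat.one_le_pow _ _ (by omega)
      calc q ^ 3 * (q ^ 2 - 1) + q ^ 3 = q ^ 3 * (q ^ 2 - 1 + 1) := by ring
        _ = q ^ 3 * q ^ 2 := by rw [Nat.sub_add_cancel this]
        _ = q ^ 5 := by ring
    omega
  have hq2 : 0 < q ^ 2 - 1 := by
    have : 1 < q ^ 2 := Nat.one_lt_pow (by norm_num) hq
    omega
  have hfib : S0.card ≤ (q ^ 2 - 1) * (S0.image (fun x => x / x ^ q ^ 2)).card := by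
    apply Finset.card_le_mul_card_image
    intro b _
    have : (S0.filter (fun x => x / x ^ q ^ 2 = b)) ⊆ (nthRoots (q ^ 2 - 1) b⁻¹).toFinset := by
      intro x hx
      rw [Multiset.mem_toFinset, mem_nthRoots hq2]
      have h3 := (Finset.mem_filter.mp hx).2
      have hx0 : x ≠ 0 := (Finset.mem_erase.mp (Finset.mem_filter.mp hx).1).1
      have h4 : x ^ q ^ 2 = x ^ (q ^ 2 - 1) * x := by
        rw [← pow_succ]
        congr 1
        omega
      rw [← h3, inv_div, h4, mul_div_assoc, div_self hx0, mul_one]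
    calc _ ≤ (nthRoots (q ^ 2 - 1) b⁻¹).toFinset.card := Finset.card_le_card this
      _ ≤ Multiset.card (nthRoots (q ^ 2 - 1) b⁻¹) := Multiset.toFinset_card_le _
      _ ≤ q ^ 2 - 1 := card_nthRoots _ _
  have himg : q ^ 3 ≤ (S0.image (fun x => x / x ^ q ^ 2)).card := by
    have h3 : (q ^ 2 - 1) * q ^ 3 ≤ (q ^ 2 - 1) * (S0.image (fun x => x / x ^ q ^ 2)).card := by
      calc (q ^ 2 - 1) * q ^ 3 = q ^ 3 * (q ^ 2 - 1) := Nat.mul_comm _ _
        _ ≤ S0.card := hS0c
        _ ≤ _ := hfib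
    exact Nat.le_of_mul_le_mul_left h3 hq2
  refine himg.trans ?_
  rw [Nat.card_eq_fintype_card, Fintype.card_subtype]
  have hsub : S0.image (fun x => x / x ^ q ^ 2) ⊆
      (Finset.univ.filter (fun b : E => Good q b)).image (fun b => b * b ^ q) := by
    intro c hc
    obtain ⟨x, hx, rfl⟩ := Finset.mem_image.mp hc
    obtain ⟨hx0, hxS⟩ := Finset.mem_erase.mp hx
    rw [hS] at hxS
    obtain ⟨b, g1, g2⟩ := good_of_iso h h2 k hk x hx0 (Finset.mem_filter.mp hxS).2.2
    exact Finset.mem_image.mpr ⟨b, Finset.mem_filter.mpr ⟨Finset.mem_univ _, g1⟩, g2⟩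
  exact (Finset.card_le_card hsub).trans Finset.card_image_le

/-- The field. -/
theorem field_exists (m : ℕ) (hm : 1 ≤ m) : ∃ (E : Type) (_ : Field E) (_ : Finite E),
    (2 : E) = 0 ∧ Fr E (2 ^ m) ∧ Nat.card E = (2 ^ m) ^ 8 ∧
      (2 ^ m) ^ 3 ≤ Nat.card {b : E // Good (2 ^ m) b} := by
  classical
  have : Fact (Nat.Prime 2) := ⟨Nat.prime_two⟩
  let E := GaloisField 2 (m * 8)
  have : Finite E := Module.finite_of_finite (ZMod 2)
  have : Fintype E := Fintype.ofFinite E
  have hcard : Nat.card E = (2 ^ m) ^ 8 := by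
    rw [GaloisField.card 2 (m * 8) (by omega), pow_mul]
  have hcard' : Fintype.card E = (2 ^ m) ^ 8 := by
    rw [← hcard, Nat.card_eq_fintype_card]
  have h2 : (2 : E) = 0 := by
    have := CharP.cast_eq_zero E 2
    exact_mod_cast this
  have hFr : Fr E (2 ^ m) := by
    refine ⟨by positivity, ?_, ?_⟩
    · intro x y
      exact add_pow_char_pow x y 2 m
    · intro x
      rw [← hcard']
      exact FiniteField.pow_card x
  obtain ⟨k, hk⟩ : ∃ k, 4 * k = (2 ^ m) ^ 2 := by
    obtain ⟨s, rfl⟩ : ∃ s, m = s + 1 := ⟨m - 1, by omega⟩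
    exact ⟨(2 ^ s) ^ 2, by ring⟩
  exact ⟨E, inferInstance, inferInstance, h2, hFr, hcard,
    good_card hFr h2 k hk (Nat.one_lt_pow (by omega) (by norm_num)) hcard'⟩

end H41G4
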