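import Pool.Agent.H41.G4.El

/-!
The letters: linear elements `b ^ (-q) + b Π` and their adjugates.
-/

namespace H41G4

open Polynomial Matrix

variable {E : Type*} [Field E] {q : ℕ}

/-- The parameters of the letters. -/
structure Good (q : ℕ) (b : E) : Prop where
  nrm : b * b ^ q ^ 2 * b ^ q ^ 4 * b ^ q ^ 6 = 1
  eqn : b * b ^ q * (b ^ q ^ 3 * b ^ q ^ 4) + b ^ q * b ^ q ^ 4 + 1 = b ^ q ^ 3 * b ^ q ^ 4
  vec : ∃ x : E, x ≠ 0 ∧ x ^ q ^ 2 * (b * b ^ q) = x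

/-- The letter `b ^ (-q) + b Π`. -/
noncomputable def sm (q : ℕ) (b : E) : Matrix (Fin 4) (Fin 4) E[X] :=
  mon q (b ^ q)⁻¹ 0 + mon q b 1

/-- The adjugate of the letter. -/
noncomputable def tm (q : ℕ) (b : E) : Matrix (Fin 4) (Fin 4) E[X] :=
  mon q (b ^ q) 0 + mon q (b * b ^ q * b ^ q ^ 3) 1 +
    mon q (b * b ^ q * b ^ q ^ 2 * b ^ q ^ 3 * b ^ q ^ 5) 2 +
    mon q (b * b ^ q * b ^ q ^ 2 * b ^ q ^ 3 * b ^ q ^ 4 * b ^ q ^ 5 * b ^ q ^ 7) 3

theorem Good.ne {b : E} (hb : Good q b) : b ≠ 0 := by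
  intro h
  have := hb.nrm
  rw [h] at this
  simp at this

theorem pp (b : E) (i j : ℕ) : (b ^ q ^ i) ^ q ^ j = b ^ q ^ (i + j) := by
  rw [← pow_mul, ← pow_add]

theorem pp1 (b : E) (j : ℕ) : (b ^ q) ^ q ^ j = b ^ q ^ (1 + j) := by
  rw [← pow_mul, pow_add, pow_one]

theorem pp' (b : E) (i : ℕ) : (b ^ q ^ i) ^ q = b ^ q ^ (i + 1) := by
  rw [← pow_mul, pow_succ]

theorem sm_gr (h : Fr E q) (b : E) : Gr q (sm q b) := (mon_gr h _ _).add h (mon_gr h _ _)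

theorem tm_gr (h : Fr E q) (b : E) : Gr q (tm q b) :=
  (((mon_gr h _ _).add h (mon_gr h _ _)).add h (mon_gr h _ _)).add h (mon_gr h _ _)

theorem sm_deg (b : E) (i j : Fin 4) : (sm q b i j).natDegree ≤ 1 := by
  simp only [sm, Matrix.add_apply]
  exact (natDegree_add_le _ _).trans (max_le ((mon_deg _ _ _ _).trans (by norm_num))
    (mon_deg _ _ _ _))

theorem tm_deg (b : E) (i j : Fin 4) : (tm q b i j).natDegree ≤ 3 := by
  simp only [tm, Matrix.add_apply]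
  refine (natDegree_add_le _ _).trans (max_le ((natDegree_add_le _ _).trans (max_le
    ((natDegree_add_le _ _).trans (max_le ?_ ?_)) ?_)) ?_)
  · exact (mon_deg _ _ _ _).trans (by norm_num)
  · exact (mon_deg _ _ _ _).trans (by norm_num)
  · exact (mon_deg _ _ _ _).trans (by norm_num)
  · exact mon_deg _ _ _ _

theorem add_self' (h2 : (2 : E) = 0) (x : E) : x + x = 0 := by linear_combination x * h2

theorem Good.nrm' {b : E} (hb : Good q b) :
    b ^ q * b ^ q ^ 3 * b ^ q ^ 5 * b ^ q ^ 7 = 1 := by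
  have := congrArg (fun x => x ^ q) hb.nrm
  simp only [mul_pow, pp', one_pow] at this
  exact this

theorem sm_tm_self (h : Fr E q) (h2 : (2 : E) = 0) (b : E) (hb : Good q b) :
    sm q b * tm q b = ((1 + X ^ 4 : E[X])) • (1 : Matrix (Fin 4) (Fin 4) E[X]) := by
  have h0 := hb.ne
  have h1 : b ^ q ≠ 0 := pow_ne_zero _ h0
  simp only [sm, tm, add_mul, mul_add, mon_mul h, mul_zero, pow_zero, pow_one, mul_one,
    mul_pow, pp, pp1, zero_add]
  norm_num
  have e0 : (b ^ q)⁻¹ * b ^ q = 1 := inv_mul_cancel₀ h1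
  have e1 : (b ^ q)⁻¹ * (b * b ^ q * b ^ q ^ 3) = b * b ^ q ^ 3 := by field_simp
  have e2 : (b ^ q)⁻¹ * (b * b ^ q * b ^ q ^ 2 * b ^ q ^ 3 * b ^ q ^ 5) =
    b * (b ^ q ^ 2 * b ^ q ^ 3 * b ^ q ^ 5) := by field_simp
  have e3 : (b ^ q)⁻¹ * (b * b ^ q * b ^ q ^ 2 * b ^ q ^ 3 * b ^ q ^ 4 * b ^ q ^ 5 * b ^ q ^ 7) =
    b * (b ^ q ^ 2 * b ^ q ^ 3 * b ^ q ^ 4 * b ^ q ^ 5 * b ^ q ^ 7) := by field_simp
  have e4 : b * (b ^ q ^ 2 * b ^ q ^ 3 * b ^ q ^ 4 * b ^ q ^ 5 * b ^ q ^ 6 * b ^ q ^ 7 *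
      b ^ q ^ 9) = 1 := by
    have h9 : b ^ q ^ 9 = b ^ q := by
      have := h.per_add 1 b
      simpa using this
    rw [h9]
    linear_combination (b ^ q * b ^ q ^ 3 * b ^ q ^ 5 * b ^ q ^ 7) * hb.nrm + hb.nrm'
  rw [e0, e1, e2, e3, e4, mon_one]
  have := mon_X4 (E := E) (q := q) 1
  rw [mul_one] at this
  rw [this]
  have z : ∀ (x : E) n, mon q x n + mon q x n = 0 := fun x n => by
    rw [← mon_add h, add_self' h2, mon_zero h]
  rw [add_smul, one_smul]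
  calc _ = 1 + (X ^ 4 : E[X]) • (1 : Matrix (Fin 4) (Fin 4) E[X]) +
        (mon q (b * b ^ q ^ 3) 1 + mon q (b * b ^ q ^ 3) 1) +
        (mon q (b * (b ^ q ^ 2 * b ^ q ^ 3 * b ^ q ^ 5)) 2 +
          mon q (b * (b ^ q ^ 2 * b ^ q ^ 3 * b ^ q ^ 5)) 2) +
        (mon q (b * (b ^ q ^ 2 * b ^ q ^ 3 * b ^ q ^ 4 * b ^ q ^ 5 * b ^ q ^ 7)) 3 +
          mon q (b * (b ^ q ^ 2 * b ^ q ^ 3 * b ^ q ^ 4 * b ^ q ^ 5 * b ^ q ^ 7)) 3) := by abel
    _ = _ := by rw [z, z, z]; simp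

theorem det_cyc {R : Type*} [CommRing R] (a b c d e f g k : R) :
    (!![a, b, 0, 0; 0, c, d, 0; 0, 0, e, f; g, 0, 0, k] : Matrix (Fin 4) (Fin 4) R).det =
      a * c * e * k - b * d * f * g := by
  simp [Matrix.det_succ_row_zero, Fin.sum_univ_succ, Fin.succAbove]
  ring

theorem two_poly (h2 : (2 : E) = 0) : (2 : E[X]) = 0 := by
  calc (2 : E[X]) = C (2 : E) := (map_ofNat C 2).symm
    _ = 0 := by rw [h2, C_0]

theorem sm_eq (b : E) : sm q b = !![C (b ^ q)⁻¹, C b * X, 0, 0;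
      0, C (((b ^ q)⁻¹) ^ q ^ 2), C (b ^ q ^ 2) * X, 0;
      0, 0, C (((b ^ q)⁻¹) ^ q ^ 4), C (b ^ q ^ 4) * X;
      C (b ^ q ^ 6) * X, 0, 0, C (((b ^ q)⁻¹) ^ q ^ 6)] := by
  ext1 i j
  fin_cases i <;> fin_cases j <;> simp [sm, mon, el, Matrix.add_apply]

theorem sm_det (h2 : (2 : E) = 0) (b : E) (hb : Good q b) :
    (sm q b).det = 1 + X ^ 4 := by
  have n1 := hb.nrm
  have n2 := hb.nrm'
  have n3 : (b ^ q)⁻¹ * ((b ^ q)⁻¹) ^ q ^ 2 * ((b ^ q)⁻¹) ^ q ^ 4 * ((b ^ q)⁻¹) ^ q ^ 6 = 1 := by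
    simp only [inv_pow, pp1]
    norm_num
    rw [← mul_inv, ← mul_inv, ← mul_inv, n2, inv_one]
  have m1 : C (b ^ q)⁻¹ * C (((b ^ q)⁻¹) ^ q ^ 2) * C (((b ^ q)⁻¹) ^ q ^ 4) *
      C (((b ^ q)⁻¹) ^ q ^ 6) = (1 : E[X]) := by
    rw [← C_mul, ← C_mul, ← C_mul, n3, C_1]
  have m2 : C b * C (b ^ q ^ 2) * C (b ^ q ^ 4) * C (b ^ q ^ 6) = (1 : E[X]) := by
    rw [← C_mul, ← C_mul, ← C_mul, n1, C_1]
  have h2' : (2 : E[X]) = 0 := two_poly h2
  rw [sm_eq, det_cyc]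
  linear_combination m1 - X ^ 4 * m2 - X ^ 4 * h2'

theorem one_add_ne : (1 + X ^ 4 : E[X]) ≠ 0 := by
  intro h
  have := congrArg (eval 0) h
  simp at this

theorem cancel_left {R : Type*} [CommRing R] [IsDomain R] {A B C' : Matrix (Fin 4) (Fin 4) R}
    (hA : A.det ≠ 0) (hAB : A * B = A * C') : B = C' := by
  have h1 : A.adjugate * (A * B) = A.adjugate * (A * C') := by rw [hAB]
  rw [← Matrix.mul_assoc, ← Matrix.mul_assoc, Matrix.adjugate_mul, Matrix.smul_mul,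
    Matrix.smul_mul, Matrix.one_mul, Matrix.one_mul] at h1
  ext i j
  have h2 := congrFun (congrFun h1 i) j
  simp only [Matrix.smul_apply, smul_eq_mul] at h2
  exact mul_left_cancel₀ hA h2

theorem cancel_right {R : Type*} [CommRing R] [IsDomain R] {A B C' : Matrix (Fin 4) (Fin 4) R}
    (hA : A.det ≠ 0) (hAB : B * A = C' * A) : B = C' := by
  have h1 : (B * A) * A.adjugate = (C' * A) * A.adjugate := by rw [hAB]
  rw [Matrix.mul_assoc, Matrix.mul_assoc, Matrix.mul_adjugate, Matrix.mul_smul,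
    Matrix.mul_smul, Matrix.mul_one, Matrix.mul_one] at h1
  ext i j
  have h2 := congrFun (congrFun h1 i) j
  simp only [Matrix.smul_apply, smul_eq_mul] at h2
  exact mul_left_cancel₀ hA h2

theorem cancel_smul {z : E[X]} (hz : z ≠ 0) {A B : Matrix (Fin 4) (Fin 4) E[X]}
    (h : z • A = z • B) : A = B := by
  ext1 i j
  have := congrFun (congrFun h i) j
  simp only [Matrix.smul_apply, smul_eq_mul] at this
  exact mul_left_cancel₀ hz this

theorem tm_sm_self (h : Fr E q) (h2 : (2 : E) = 0) (b : E) (hb : Good q b) :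
    tm q b * sm q b = ((1 + X ^ 4 : E[X])) • (1 : Matrix (Fin 4) (Fin 4) E[X]) := by
  have hd : (sm q b).det ≠ 0 := by rw [sm_det h2 b hb]; exact one_add_ne
  apply cancel_left hd
  rw [← Matrix.mul_assoc, sm_tm_self h h2 b hb, Matrix.smul_mul, Matrix.one_mul, Matrix.mul_smul,
    Matrix.mul_one]

theorem tm_det (h : Fr E q) (h2 : (2 : E) = 0) (b : E) (hb : Good q b) :
    (tm q b).det = (1 + X ^ 4) ^ 3 := by
  have h1 := congrArg Matrix.det (sm_tm_self h h2 b hb)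
  rw [Matrix.det_mul, sm_det h2 b hb, Matrix.det_smul, Matrix.det_one, mul_one,
    Fintype.card_fin] at h1
  apply mul_left_cancel₀ (one_add_ne (E := E))
  rw [h1]
  ring

/-- The power map as a ring homomorphism. -/
def Fr.hom (h : Fr E q) : E →+* E where
  toFun x := x ^ q
  map_one' := one_pow _
  map_mul' x y := mul_pow x y q
  map_zero' := _root_.zero_pow h.pos.ne'
  map_add' := h.add

/-- The involution. -/
noncomputable def rv (h : Fr E q) (N : ℕ) (A : Matrix (Fin 4) (Fin 4) E[X]) :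
    Matrix (Fin 4) (Fin 4) E[X] :=
  fun i j => ((A j i).map h.hom).reflect N

theorem rv_add (h : Fr E q) (N : ℕ) (A B : Matrix (Fin 4) (Fin 4) E[X]) :
    rv h N (A + B) = rv h N A + rv h N B := by
  ext1 i j
  simp [rv, reflect_add]

theorem rv_mul (h : Fr E q) {M N : ℕ} {A B : Matrix (Fin 4) (Fin 4) E[X]}
    (hA : ∀ i j, (A i j).natDegree ≤ M) (hB : ∀ i j, (B i j).natDegree ≤ N) :
    rv h (M + N) (A * B) = rv h N B * rv h M A := by
  ext1 i j
  simp only [rv, Matrix.mul_apply]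
  have : ∀ s : Finset (Fin 4), ((∑ k ∈ s, A j k * B k i).map h.hom).reflect (M + N) =
      ∑ k ∈ s, ((B k i).map h.hom).reflect N * ((A j k).map h.hom).reflect M := by
    intro s
    classical
    induction s using Finset.induction_on with
    | empty => simp
    | insert a s ha ih =>
      rw [Finset.sum_insert ha, Finset.sum_insert ha, Polynomial.map_add, reflect_add, ih,
        Polynomial.map_mul, reflect_mul _ _ (natDegree_map_le.trans (hA _ _))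
        (natDegree_map_le.trans (hB _ _)), mul_comm]
  exact this _

theorem rv_mon (h : Fr E q) (a : E) (n : ℕ) (hn : n ≤ 4) :
    rv h 4 (mon q a n) = mon q ((a ^ q) ^ q ^ (2 * (4 - n))) (4 - n) := by
  ext1 i j
  simp only [rv, mon, Polynomial.map_mul, map_C, Polynomial.map_pow, map_X, reflect_C_mul_X_pow]
  rw [revAt_le hn]
  have : h.hom (el q a n j i) = el q ((a ^ q) ^ q ^ (2 * (4 - n))) (4 - n) i j := by
    simp only [el]
    by_cases hij : (i : ℕ) = ((j : ℕ) + n) % 4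
    · have hji : (j : ℕ) = ((i : ℕ) + (4 - n)) % 4 := by omega
      rw [if_pos hij, if_pos hji]
      change (a ^ q ^ (2 * (j : ℕ))) ^ q = _
      rw [pp', pp1, pp]
      rw [← h.per_mod, ← h.per_mod (1 + 2 * (4 - n) + 2 * (i : ℕ))]
      congr 2
      omega
    · have hji : ¬ (j : ℕ) = ((i : ℕ) + (4 - n)) % 4 := by omega
      rw [if_neg hij, if_neg hji, map_zero]
  rw [this]

/-- The element `1 + Π`. -/
noncomputable def um (E : Type*) [Field E] (q : ℕ) : Matrix (Fin 4) (Fin 4) E[X] :=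
  mon q 1 0 + mon q 1 1

/-- The other form. -/
noncomputable def vm (E : Type*) [Field E] (q : ℕ) : Matrix (Fin 4) (Fin 4) E[X] :=
  mon q 1 3 + mon q 1 4 + mon q 1 5 + mon q 1 6

theorem rv_sm (h : Fr E q) (b : E) :
    rv h 4 (sm q b) = mon q (b ^ q ^ 7) 3 + mon q (b ^ q ^ 2)⁻¹ 4 := by
  rw [sm, rv_add, rv_mon h _ _ (by norm_num), rv_mon h _ _ (by norm_num), add_comm]
  have e1 : (b ^ q) ^ q ^ (2 * (4 - 1)) = b ^ q ^ 7 := by
    rw [pp1]
  have e2 : ((b ^ q)⁻¹ ^ q) ^ q ^ (2 * (4 - 0)) = (b ^ q ^ 2)⁻¹ := by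
    rw [Nat.sub_zero, show 2 * 4 = 8 from rfl, h.per, inv_pow, ← pow_mul, ← pow_two]
  rw [e1, e2]

theorem Good.eqn' (h : Fr E q) {b : E} (hb : Good q b) (i : ℕ) :
    b ^ q ^ i * b ^ q ^ (1 + i) * (b ^ q ^ (3 + i) * b ^ q ^ (4 + i)) +
      b ^ q ^ (1 + i) * b ^ q ^ (4 + i) + 1 = b ^ q ^ (3 + i) * b ^ q ^ (4 + i) := by
  have := congrArg (fun x => x ^ q ^ i) hb.eqn
  simp only [h.add_pow, mul_pow, pp, pp1, one_pow] at this
  exact this

/-- All the letters satisfy the same relation. -/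
theorem rel (h : Fr E q) (b : E) (hb : Good q b) :
    rv h 4 (sm q b) * um E q * sm q b = vm E q := by
  have b0 := hb.ne
  have b1 : b ^ q ≠ 0 := pow_ne_zero _ b0
  have b2 : b ^ q ^ 2 ≠ 0 := pow_ne_zero _ b0
  have b3 : b ^ q ^ 3 ≠ 0 := pow_ne_zero _ b0
  have b7 : b ^ q ^ 7 ≠ 0 := pow_ne_zero _ b0
  have k8 : b ^ q ^ 8 = b := h.per b
  have k9 : b ^ q ^ 9 = b ^ q := by simpa using h.per_add 1 b
  have k10 : b ^ q ^ 10 = b ^ q ^ 2 := by simpa using h.per_add 2 b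
  have k11 : b ^ q ^ 11 = b ^ q ^ 3 := by simpa using h.per_add 3 b
  have g6 := hb.eqn' h 6
  have g7 := hb.eqn' h 7
  norm_num [k8, k9, k10, k11] at g6 g7
  rw [rv_sm, um, sm, vm]
  simp only [add_mul, mul_add, mon_mul h, mul_zero, pow_zero, pow_one, mul_one,
    mul_pow, pp, pp1, zero_add, one_pow, inv_pow]
  norm_num [k8, k9, k10, k11]
  have t3 : b ^ q ^ 7 * (b ^ q ^ 7)⁻¹ = 1 := mul_inv_cancel₀ b7
  have t6 : (b ^ q ^ 2)⁻¹ * b ^ q ^ 2 = 1 := inv_mul_cancel₀ b2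
  have t4 : (b ^ q ^ 2)⁻¹ * (b ^ q)⁻¹ + b ^ q ^ 7 * (b ^ q)⁻¹ + b ^ q ^ 7 * b ^ q ^ 6 = 1 := by
    field_simp
    linear_combination g6
  have t5 : (b ^ q ^ 2)⁻¹ * (b ^ q ^ 3)⁻¹ + (b ^ q ^ 2)⁻¹ * b + b ^ q ^ 7 * b = 1 := by
    field_simp
    linear_combination g7
  rw [t3, t6]
  have t5' : mon q (1 : E) 5 = mon q ((b ^ q ^ 2)⁻¹ * (b ^ q ^ 3)⁻¹) 5 +
      mon q ((b ^ q ^ 2)⁻¹ * b) 5 + mon q (b ^ q ^ 7 * b) 5 := by
    rw [← mon_add h, ← mon_add h, t5]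
  have t4' : mon q (1 : E) 4 = mon q ((b ^ q ^ 2)⁻¹ * (b ^ q)⁻¹) 4 +
      mon q (b ^ q ^ 7 * (b ^ q)⁻¹) 4 + mon q (b ^ q ^ 7 * b ^ q ^ 6) 4 := by
    rw [← mon_add h, ← mon_add h, t4]
  rw [t4', t5']
  abel

theorem um_det (h2 : (2 : E) = 0) : (um E q).det = 1 + X ^ 4 := by
  have h2' : (2 : E[X]) = 0 := two_poly h2
  have e : um E q = !![1, 1 * X, 0, 0; 0, 1, 1 * X, 0; 0, 0, 1, 1 * X; 1 * X, 0, 0, 1] := by
    ext1 i j
    fin_cases i <;> fin_cases j <;> simp [um, mon, el, Matrix.add_apply]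
  rw [e, det_cyc]
  linear_combination (-X ^ 4) * h2'

theorem rv_smul_one (h : Fr E q) :
    rv h 8 ((1 + X ^ 4 : E[X]) • (1 : Matrix (Fin 4) (Fin 4) E[X])) =
      (X ^ 4 * (1 + X ^ 4) : E[X]) • 1 := by
  ext1 i j
  simp only [rv, Matrix.smul_apply, smul_eq_mul]
  by_cases hij : i = j
  · subst hij
    rw [Matrix.one_apply_eq, mul_one, Polynomial.map_add, Polynomial.map_pow, map_X,
      Polynomial.map_one, reflect_add, mul_one]
    have e1 : reflect 8 (1 : E[X]) = X ^ 8 := by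
      have := reflect_C (1 : E) 8
      rwa [C_1, one_mul] at this
    have e2 : reflect 8 (X ^ 4 : E[X]) = X ^ 4 := by
      have := reflect_C_mul_X_pow 8 4 (c := (1 : E))
      rw [C_1, one_mul, one_mul] at this
      rw [this]
      rfl
    rw [e1, e2]
    ring
  · rw [Matrix.one_apply_ne hij, Matrix.one_apply_ne (fun h' => hij h'.symm)]
    simp

theorem rv_shift (h : Fr E q) (A : Matrix (Fin 4) (Fin 4) E[X])
    (hA : ∀ i j, (A i j).natDegree ≤ 4) : rv h 8 A = (X ^ 4 : E[X]) • rv h 4 A := by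
  ext1 i j
  simp only [rv, Matrix.smul_apply, smul_eq_mul]
  have := reflect_mul (1 : E[X]) ((A j i).map h.hom) (F := 4) (G := 4) (by simp)
    (natDegree_map_le.trans (hA _ _))
  rw [one_mul] at this
  have e1 : reflect 4 (1 : E[X]) = X ^ 4 := by
    have := reflect_C (1 : E) 4
    rwa [C_1, one_mul] at this
  rw [e1] at this
  exact this

theorem natDegree_mul_le' {A B : Matrix (Fin 4) (Fin 4) E[X]} {M N : ℕ}
    (hA : ∀ i j, (A i j).natDegree ≤ M) (hB : ∀ i j, (B i j).natDegree ≤ N) (i j : Fin 4) :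
    ((A * B) i j).natDegree ≤ M + N := by
  rw [Matrix.mul_apply]
  apply natDegree_sum_le_of_forall_le
  intro k _
  exact natDegree_mul_le.trans (Nat.add_le_add (hA _ _) (hB _ _))

/-- The effect of the involution on a pair. -/
theorem rv_pair (h : Fr E q) (h2 : (2 : E) = 0) (a b : E) (ha : Good q a) (hb : Good q b) :
    rv h 4 (sm q a * tm q b) * um E q = um E q * (sm q b * tm q a) := by
  have d1 : ∀ (c : E) (i j : Fin 4), (sm q c i j).natDegree ≤ 4 := fun c i j =>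
    (sm_deg c i j).trans (by norm_num)
  have d3 : ∀ (c : E) (i j : Fin 4), (tm q c i j).natDegree ≤ 4 := fun c i j =>
    (tm_deg c i j).trans (by norm_num)
  have hT : rv h 4 (tm q b) * rv h 4 (sm q b) = (X ^ 4 * (1 + X ^ 4) : E[X]) • 1 := by
    rw [← rv_mul h (d1 b) (d3 b), sm_tm_self h h2 b hb]
    exact rv_smul_one h
  have hS : rv h 4 (tm q b) * rv h 4 (sm q a) = (X ^ 4 : E[X]) • rv h 4 (sm q a * tm q b) := by
    rw [← rv_mul h (d1 a) (d3 b)]
    apply rv_shift h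
    intro i j
    exact natDegree_mul_le' (sm_deg a) (tm_deg b) i j
  have hd : (sm q a).det ≠ 0 := by rw [sm_det h2 a ha]; exact one_add_ne
  apply cancel_right hd
  apply cancel_smul (pow_ne_zero 4 (X_ne_zero (R := E)))
  calc (X ^ 4 : E[X]) • (rv h 4 (sm q a * tm q b) * um E q * sm q a)
      = rv h 4 (tm q b) * (rv h 4 (sm q a) * um E q * sm q a) := by
        rw [← Matrix.smul_mul, ← Matrix.smul_mul, ← hS]
        simp only [Matrix.mul_assoc]
    _ = rv h 4 (tm q b) * (rv h 4 (sm q b) * um E q * sm q b) := by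
        rw [rel h a ha, rel h b hb]
    _ = (X ^ 4 * (1 + X ^ 4) : E[X]) • (um E q * sm q b) := by
        rw [Matrix.mul_assoc (rv h 4 (sm q b)), ← Matrix.mul_assoc, hT, Matrix.smul_mul,
          Matrix.one_mul]
    _ = (X ^ 4 : E[X]) • (um E q * (sm q b * tm q a) * sm q a) := by
        rw [Matrix.mul_assoc (um E q), Matrix.mul_assoc (sm q b), tm_sm_self h h2 a ha,
          Matrix.mul_smul, Matrix.mul_smul, Matrix.mul_one, smul_smul]

end H41G4
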