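import Pool.Agent.H41.G4.Ev

/-!
A word with `n` pairs of letters is not congruent to `1` modulo `Π ^ r` if `1 ≤ n < 2 r`.
-/

namespace H41G4

open Polynomial Matrix

variable {E : Type*} [Field E] {q : ℕ}

theorem Fr.neg_pow (h : Fr E q) (n : ℕ) (x : E) : (-x) ^ q ^ n = -x ^ q ^ n := by
  have := h.add_pow n x (-x)
  rw [add_neg_cancel, h.zero_pow] at this
  linear_combination -this

theorem el_neg (h : Fr E q) (a : E) (n : ℕ) : el q (-a) n = -el q a n := by
  ext i j
  simp only [el, Matrix.neg_apply]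
  split_ifs
  · exact h.neg_pow _ _
  · simp

theorem Gr.neg (h : Fr E q) {A : Matrix (Fin 4) (Fin 4) E[X]} (hA : Gr q A) : Gr q (-A) := by
  intro n
  obtain ⟨a, ha⟩ := hA n
  refine ⟨-a, fun i j => ?_⟩
  rw [Matrix.neg_apply, coeff_neg, ha, el_neg h, Matrix.neg_apply]

theorem Gr.sub (h : Fr E q) {A B : Matrix (Fin 4) (Fin 4) E[X]} (hA : Gr q A) (hB : Gr q B) :
    Gr q (A - B) := by
  rw [sub_eq_add_neg]
  exact hA.add h (hB.neg h)

theorem gr_scalar (h : Fr E q) (n : ℕ) :
    Gr q (((1 + X ^ 4) ^ n : E[X]) • (1 : Matrix (Fin 4) (Fin 4) E[X])) := by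
  have h1 : ((1 + X ^ 4 : E[X]) • (1 : Matrix (Fin 4) (Fin 4) E[X])) =
      mon q (1 : E) 0 + mon q (1 : E) 4 := by
    have := mon_X4 (E := E) (q := q) 1
    rw [mul_one] at this
    rw [this, mon_one, add_smul, one_smul]
  induction n with
  | zero => simpa using gr_one h
  | succ n ih =>
    have h2 : (((1 + X ^ 4) ^ (n + 1) : E[X]) • (1 : Matrix (Fin 4) (Fin 4) E[X])) =
        (((1 + X ^ 4) ^ n : E[X]) • (1 : Matrix (Fin 4) (Fin 4) E[X])) *
        ((1 + X ^ 4 : E[X]) • (1 : Matrix (Fin 4) (Fin 4) E[X])) := by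
      rw [Matrix.smul_mul, Matrix.one_mul, smul_smul, pow_succ]
    rw [h2]
    refine ih.mul h ?_
    rw [h1]
    exact (mon_gr h _ _).add h (mon_gr h _ _)

theorem exists_smul {Y : Matrix (Fin 4) (Fin 4) E[X]} {m : ℕ}
    (hY : ∀ i j, (X ^ m : E[X]) ∣ Y i j) :
    ∃ Z : Matrix (Fin 4) (Fin 4) E[X], Y = (X ^ m : E[X]) • Z := by
  choose Z hZ using hY
  refine ⟨Matrix.of Z, ?_⟩
  ext1 i j
  rw [hZ, Matrix.smul_apply, smul_eq_mul, Matrix.of_apply]

theorem dvd_mul_entries {A B : Matrix (Fin 4) (Fin 4) E[X]} {d : E[X]}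
    (hA : ∀ i j, d ∣ A i j) (i j : Fin 4) : d ∣ (A * B) i j ∧ d ∣ (B * A) i j := by
  rw [Matrix.mul_apply, Matrix.mul_apply]
  exact ⟨Finset.dvd_sum fun k _ => (hA i k).mul_right _, Finset.dvd_sum fun k _ =>
    (hA k j).mul_left _⟩

theorem det_dvd {Y : Matrix (Fin 4) (Fin 4) E[X]} {m : ℕ}
    (hY : ∀ i j, (X ^ m : E[X]) ∣ Y i j) : (X ^ (4 * m) : E[X]) ∣ Y.det := by
  obtain ⟨Z, rfl⟩ := exists_smul hY
  rw [Matrix.det_smul, Fintype.card_fin, ← pow_mul, mul_comm m 4]
  exact dvd_mul_right _ _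

theorem det_deg {Y : Matrix (Fin 4) (Fin 4) E[X]} {N : ℕ}
    (hY : ∀ i j, (Y i j).natDegree ≤ N) : Y.det.natDegree ≤ 4 * N := by
  rw [Matrix.det_apply']
  apply natDegree_sum_le_of_forall_le
  intro σ _
  refine natDegree_mul_le.trans ?_
  rw [natDegree_intCast, zero_add]
  refine (natDegree_prod_le _ _).trans ?_
  calc ∑ i, (Y (σ i) i).natDegree ≤ ∑ _i : Fin 4, N := Finset.sum_le_sum fun i _ => hY _ _
    _ = 4 * N := by simp

theorem det_ne (h : Fr E q) {Y : Matrix (Fin 4) (Fin 4) E[X]} (hg : Gr q Y) (h0 : Y ≠ 0) :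
    Y.det ≠ 0 := by
  classical
  have hex : ∃ n, ∃ i j, (Y i j).coeff n ≠ 0 := by
    by_contra hcon
    push Not at hcon
    apply h0
    ext1 i j
    ext n
    simpa using hcon n i j
  obtain ⟨m, ⟨i, j, hij⟩, hmin⟩ : ∃ m, (∃ i j, (Y i j).coeff m ≠ 0) ∧
      ∀ k, k < m → ∀ i j, (Y i j).coeff k = 0 := by
    refine ⟨Nat.find hex, Nat.find_spec hex, fun k hk i j => ?_⟩
    have := Nat.find_min hex hk
    push Not at this
    exact this i j
  have hdvd : ∀ i j, (X ^ m : E[X]) ∣ Y i j := by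
    intro i j
    rw [X_pow_dvd_iff]
    intro d hd
    exact hmin d hd i j
  obtain ⟨Z, hZ⟩ := exists_smul hdvd
  obtain ⟨a, ha⟩ := hg m
  have ha0 : a ≠ 0 := by
    intro h'
    apply hij
    rw [ha, h', el_zero h]
    rfl
  have hZ0 : (evalRingHom (0 : E)).mapMatrix Z = el q a m := by
    ext i j
    rw [← ha i j, hZ, Matrix.smul_apply, smul_eq_mul]
    have := coeff_X_pow_mul (Z i j) m 0
    rw [zero_add] at this
    rw [this, RingHom.mapMatrix_apply, Matrix.map_apply, coe_evalRingHom, ← coeff_zero_eq_eval_zero]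
  have hne : Z.det ≠ 0 := by
    intro h'
    have hdet := el_det_ne h ha0 m
    rw [← hZ0, ← RingHom.map_det, h', map_zero] at hdet
    exact hdet rfl
  rw [hZ, Matrix.det_smul]
  exact mul_ne_zero (pow_ne_zero _ (pow_ne_zero _ X_ne_zero)) hne

theorem cop (m n : ℕ) : IsCoprime (X ^ m : E[X]) ((1 + X ^ 4) ^ n) := by
  apply IsCoprime.pow_left
  apply IsCoprime.pow_right
  exact ⟨-X ^ 3, 1, by ring⟩

theorem refl_z (h : Fr E q) (n : ℕ) :
    reflect (4 * n) (((1 + X ^ 4) ^ n : E[X]).map h.hom) = (1 + X ^ 4) ^ n := by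
  induction n with
  | zero =>
    have := reflect_C (1 : E) 0
    rw [C_1, pow_zero, mul_one] at this
    simp [this]
  | succ n ih =>
    rw [pow_succ, Polynomial.map_mul, mul_add, mul_one, reflect_mul _ _ ?_ ?_, ih]
    · congr 1
      rw [Polynomial.map_add, Polynomial.map_one, Polynomial.map_pow, map_X, reflect_add]
      have e1 : reflect 4 (1 : E[X]) = X ^ 4 := by
        have := reflect_C (1 : E) 4
        rwa [C_1, one_mul] at this
      have e2 : reflect 4 (X ^ 4 : E[X]) = 1 := by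
        have := reflect_C_mul_X_pow 4 4 (c := (1 : E))
        rw [C_1, one_mul, one_mul] at this
        rw [this]
        simp [revAt_le]
      rw [e1, e2, add_comm]
    · rw [Polynomial.map_pow, Polynomial.map_add, Polynomial.map_one, Polynomial.map_pow, map_X]
      refine natDegree_pow_le.trans ?_
      rw [mul_comm]
      apply Nat.mul_le_mul_right
      refine (natDegree_add_le _ _).trans (max_le (by simp) (by rw [natDegree_X_pow]))
    · refine natDegree_map_le.trans ((natDegree_add_le _ _).trans (max_le (by simp) ?_))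
      rw [natDegree_X_pow]

/-- The main point. -/
theorem no_word (h : Fr E q) (h2 : (2 : E) = 0) (a b : ℕ → E) (ha : ∀ i, Good q (a i))
    (hb : ∀ i, Good q (b i)) (hab : ∀ i, a i ≠ b i) (hba : ∀ i, b i ≠ a (i + 1)) (n r : ℕ)
    (hn : 1 ≤ n) (hnr : n < 2 * r) :
    ¬ ∀ i j, (X ^ r : E[X]) ∣
      (wp q a b n - ((1 + X ^ 4) ^ n : E[X]) • (1 : Matrix (Fin 4) (Fin 4) E[X])) i j := by
  intro hX
  set z : E[X] := (1 + X ^ 4) ^ n with hz
  have z0 : z ≠ 0 := pow_ne_zero _ one_add_ne
  set Y := wp q a b n - z • (1 : Matrix (Fin 4) (Fin 4) E[X]) with hY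
  have hg : Gr q Y := (wp_gr h a b n).sub h (gr_scalar h n)
  have hY0 : Y ≠ 0 := by
    intro h0
    obtain ⟨m, rfl⟩ : ∃ m, n = m + 1 := ⟨n - 1, by omega⟩
    obtain ⟨x, hx0, hx⟩ := (hb m).vec
    apply ev_wp_ne h h2 a b ha hb hab hba (m + 1) (a m) (b m) x (ha m) (hb m) (hab m)
      (fun k hk => by
        have : k = m := by omega
        subst this
        exact (hab k).symm) hx0 hx
    have h3 : wp q a b (m + 1) = z • 1 := sub_eq_zero.mp h0
    rw [h3]
    have : ev (z • (1 : Matrix (Fin 4) (Fin 4) E[X])) = 0 := by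
      ext i j
      simp only [ev, RingHom.mapMatrix_apply, Matrix.map_apply, Matrix.smul_apply, smul_eq_mul,
        coe_evalRingHom, eval_mul, eval_add, eval_one, eval_pow, eval_X, one_pow,
        Matrix.zero_apply, hz]
      have : (1 : E) + 1 = 0 := by linear_combination h2
      rw [this, _root_.zero_pow (by omega), zero_mul]
    rw [this, Matrix.zero_mulVec]
  have hdne := det_ne h hg hY0
  have hddvd := det_dvd hX
  obtain ⟨P, hP⟩ := det_word h h2 a b ha hb n
  rw [← hz, ← hY] at hP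
  have hPne : P ≠ 0 := by
    intro h0
    rw [h0, mul_zero] at hP
    exact hdne hP
  have hPdvd : (X ^ (4 * r) : E[X]) ∣ P := by
    rw [hP] at hddvd
    exact (cop _ _).dvd_of_dvd_mul_left hddvd
  have hPdeg : 4 * r ≤ P.natDegree := by
    have := natDegree_le_of_dvd hPdvd hPne
    rwa [natDegree_X_pow] at this
  have hzdeg : ((1 + X ^ 4 : E[X]) ^ (3 * n)).natDegree = 12 * n := by
    have : (1 + X ^ 4 : E[X]).natDegree = 4 := by
      rw [add_comm, ← C_1]
      exact natDegree_X_pow_add_C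
    rw [natDegree_pow, this]
    ring
  have hdeg1 : Y.det.natDegree = 12 * n + P.natDegree := by
    rw [hP, natDegree_mul (pow_ne_zero _ one_add_ne) hPne, hzdeg]
  -- the inverse word
  have hww : wp q a b n * wr q a b n = (z ^ 2) • 1 := by
    rw [wp_wr h h2 a b ha hb, hz, ← pow_mul, mul_comm 2 n]
  have hWd : (wp q a b n).det ≠ 0 := by
    rw [wp_det h h2 a b ha hb]
    exact pow_ne_zero _ one_add_ne
  have hww' : wr q a b n * wp q a b n = (z ^ 2) • 1 := by
    apply cancel_left hWd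
    rw [← Matrix.mul_assoc, hww, Matrix.smul_mul, Matrix.one_mul, Matrix.mul_smul, Matrix.mul_one]
  have hwr : ∀ i j, (X ^ r : E[X]) ∣ (wr q a b n - z • (1 : Matrix (Fin 4) (Fin 4) E[X])) i j := by
    intro i j
    have h3 : wr q a b n * Y = -(z • (wr q a b n - z • (1 : Matrix (Fin 4) (Fin 4) E[X]))) := by
      rw [hY, Matrix.mul_sub, hww', Matrix.mul_smul, Matrix.mul_one, smul_sub, smul_smul, ← pow_two]
      abel
    have h4 := (dvd_mul_entries (B := wr q a b n) hX i j).2
    rw [h3, Matrix.neg_apply, dvd_neg, Matrix.smul_apply, smul_eq_mul] at h4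
    exact (cop _ _).dvd_of_dvd_mul_left h4
  -- the reversal
  have hrvY : rv h (4 * n) Y * um E q =
      um E q * (wr q a b n - z • (1 : Matrix (Fin 4) (Fin 4) E[X])) := by
    have h3 : rv h (4 * n) Y = rv h (4 * n) (wp q a b n) - z • 1 := by
      ext1 i j
      simp only [rv, hY, Matrix.sub_apply, Matrix.smul_apply, smul_eq_mul, Polynomial.map_sub,
        reflect_sub]
      congr 1
      by_cases hij : i = j
      · subst hij
        rw [Matrix.one_apply_eq, mul_one, hz, refl_z h]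
      · rw [Matrix.one_apply_ne hij, Matrix.one_apply_ne (fun h' => hij h'.symm)]
        simp
    rw [h3, Matrix.sub_mul, rv_wp h h2 a b ha hb, Matrix.mul_sub, Matrix.smul_mul,
      Matrix.one_mul, Matrix.mul_smul, Matrix.mul_one]
  have hrv : ∀ i j, (X ^ r : E[X]) ∣ rv h (4 * n) Y i j := by
    intro i j
    have h3 : ∀ i j, (X ^ r : E[X]) ∣ (rv h (4 * n) Y * um E q) i j := by
      intro i j
      rw [hrvY]
      exact (dvd_mul_entries (B := um E q) hwr i j).2
    have h4 := (dvd_mul_entries (B := (um E q).adjugate) h3 i j).1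
    rw [Matrix.mul_assoc, Matrix.mul_adjugate, um_det h2, Matrix.mul_smul, Matrix.mul_one,
      Matrix.smul_apply, smul_eq_mul] at h4
    have := cop (E := E) r 1
    rw [pow_one] at this
    exact this.dvd_of_dvd_mul_left h4
  have hYdeg : ∀ i j, (Y i j).natDegree ≤ 4 * n - r := by
    intro i j
    rw [natDegree_le_iff_coeff_eq_zero]
    intro N hN
    by_cases hN4 : N ≤ 4 * n
    · have h3 := (X_pow_dvd_iff.mp (hrv j i)) (4 * n - N) (by omega)
      simp only [rv] at h3
      rw [coeff_reflect, revAt_le (by omega), coeff_map] at h3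
      have h4 : 4 * n - (4 * n - N) = N := by omega
      rw [h4] at h3
      exact (map_eq_zero_iff _ h.hom.injective).mp h3
    · rw [hY, Matrix.sub_apply, coeff_sub, coeff_eq_zero_of_natDegree_lt
        (lt_of_le_of_lt (wp_deg a b n i j) (by omega)), Matrix.smul_apply, smul_eq_mul,
        coeff_eq_zero_of_natDegree_lt, sub_zero]
      refine lt_of_le_of_lt ?_ (show 4 * n < N by omega)
      refine natDegree_mul_le.trans ?_
      have h5 : ((1 : Matrix (Fin 4) (Fin 4) E[X]) i j).natDegree = 0 := by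
        rw [Matrix.one_apply]
        split_ifs <;> simp
      rw [h5, add_zero, hz]
      refine natDegree_pow_le.trans ?_
      rw [mul_comm]
      apply Nat.mul_le_mul_right
      refine (natDegree_add_le _ _).trans (max_le (by simp) (by rw [natDegree_X_pow]))
  have hfin := det_deg hYdeg
  omega

end H41G4
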