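import Pool.Agent.H41.G4.Letter

/-!
The field with `q ^ 8` elements, `q = 2 ^ m`, and the parameters of the letters.
-/

namespace H41G4

open Polynomial Matrix

variable {E : Type*} [Field E] {q : ℕ}

/-- The quadratic form. -/
def qf (q : ℕ) (x : E) : E := x * x ^ q ^ 3 + x ^ q * x ^ q ^ 4 + x ^ q ^ 2 * x ^ q ^ 5 +
  x ^ q ^ 2 * x ^ q ^ 3

/-- The trace. -/
def tf (q : ℕ) (x : E) : E := x + x ^ q ^ 2 + x ^ q ^ 4 + x ^ q ^ 6

/-- A good parameter from a nonzero isotropic element of trace zero. -/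
theorem good_of_iso (h : Fr E q) (h2 : (2 : E) = 0) (k : ℕ) (hk : 4 * k = q ^ 2) (x : E)
    (hx : x ≠ 0) (hqf : qf q x = 0) :
    ∃ b, Good q b ∧ b * b ^ q = x / x ^ q ^ 2 := by
  have x1 : x ^ q ≠ 0 := pow_ne_zero _ hx
  have x2 : x ^ q ^ 2 ≠ 0 := pow_ne_zero _ hx
  have x3 : x ^ q ^ 3 ≠ 0 := pow_ne_zero _ hx
  have x4 : x ^ q ^ 4 ≠ 0 := pow_ne_zero _ hx
  have x5 : x ^ q ^ 5 ≠ 0 := pow_ne_zero _ hx
  have x6 : x ^ q ^ 6 ≠ 0 := pow_ne_zero _ hx
  have x7 : x ^ q ^ 7 ≠ 0 := pow_ne_zero _ hx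
  have k8 : x ^ q ^ 8 = x := h.per x
  set M := x * x ^ q ^ 2 * x ^ q ^ 4 * x ^ q ^ 6 with hM
  have hM1 : M ^ q = x ^ q * x ^ q ^ 3 * x ^ q ^ 5 * x ^ q ^ 7 := by
    rw [hM, mul_pow, mul_pow, mul_pow, pp', pp', pp']
  have hM2 : (M ^ q) ^ q = M := by
    rw [hM1, mul_pow, mul_pow, mul_pow, pp', pp', pp', ← pow_mul, ← pow_two, k8, hM]
    ring
  have M0 : M ≠ 0 := mul_ne_zero (mul_ne_zero (mul_ne_zero hx x2) x4) x6
  have M1 : M ^ q ≠ 0 := pow_ne_zero _ M0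
  set u := M ^ q / M with hu
  have u0 : u ≠ 0 := div_ne_zero M1 M0
  have hu1 : u * u ^ q = 1 := by
    rw [hu, div_pow, hM2]
    field_simp
  have hu2 : u ^ q ^ 2 = u := by
    have h3 : u ^ q * u ^ q ^ 2 = 1 := by
      have := congrArg (fun t => t ^ q) hu1
      simp only [mul_pow, one_pow] at this
      rw [← pow_mul u q q, ← pow_two] at this
      exact this
    apply mul_left_cancel₀ (pow_ne_zero q u0)
    rw [h3, mul_comm, hu1]
  set ν := u ^ k with hν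
  have ν4 : ν ^ 4 = u := by rw [hν, ← pow_mul, mul_comm, hk, hu2]
  have ν1 : ν * ν ^ q = 1 := by
    rw [hν, ← pow_mul, mul_comm k q, pow_mul, ← mul_pow, hu1, one_pow]
  have ν0 : ν ≠ 0 := pow_ne_zero _ u0
  have ν2 : ν ^ q ^ 2 = ν := by
    rw [hν, ← pow_mul, mul_comm k, pow_mul, hu2]
  have ν4' : ν ^ q ^ 4 = ν := by
    have : ν ^ q ^ 4 = (ν ^ q ^ 2) ^ q ^ 2 := by rw [pp]
    rw [this, ν2, ν2]
  have ν6' : ν ^ q ^ 6 = ν := by
    have : ν ^ q ^ 6 = (ν ^ q ^ 4) ^ q ^ 2 := by rw [pp]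
    rw [this, ν4', ν2]
  have ν3' : ν ^ q ^ 3 = ν ^ q := by
    have : ν ^ q ^ 3 = (ν ^ q ^ 2) ^ q := by rw [pp']
    rw [this, ν2]
  set b := x / x ^ q * ν with hb
  have b1 : b ^ q = x ^ q / x ^ q ^ 2 * ν ^ q := by
    rw [hb, mul_pow, div_pow, ← pow_mul x q q, ← pow_two]
  have b2 : b ^ q ^ 2 = x ^ q ^ 2 / x ^ q ^ 3 * ν := by
    rw [hb, mul_pow, div_pow, pp1, ν2]
  have b3 : b ^ q ^ 3 = x ^ q ^ 3 / x ^ q ^ 4 * ν ^ q := by
    rw [hb, mul_pow, div_pow, pp1, ν3']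
  have b4 : b ^ q ^ 4 = x ^ q ^ 4 / x ^ q ^ 5 * ν := by
    rw [hb, mul_pow, div_pow, pp1, ν4']
  have b6 : b ^ q ^ 6 = x ^ q ^ 6 / x ^ q ^ 7 * ν := by
    rw [hb, mul_pow, div_pow, pp1, ν6']
  have hA : b * b ^ q = x / x ^ q ^ 2 := by
    rw [b1, hb]
    field_simp
    linear_combination ν1
  refine ⟨b, ⟨?_, ?_, ?_⟩, hA⟩
  · rw [b2, b4, b6, hb]
    have e1 : x / x ^ q * ν * (x ^ q ^ 2 / x ^ q ^ 3 * ν) * (x ^ q ^ 4 / x ^ q ^ 5 * ν) *
        (x ^ q ^ 6 / x ^ q ^ 7 * ν) = M / M ^ q * ν ^ 4 := by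
      rw [hM1, hM]
      field_simp
    rw [e1, ν4, hu]
    field_simp
  · have hA3 : b ^ q ^ 3 * b ^ q ^ 4 = x ^ q ^ 3 / x ^ q ^ 5 := by
      rw [b3, b4]
      field_simp
      linear_combination ν1
    have h14 : b ^ q * b ^ q ^ 4 = (x ^ q * x ^ q ^ 4) / (x ^ q ^ 2 * x ^ q ^ 5) := by
      rw [b1, b4]
      field_simp
      linear_combination ν1
    rw [hA, hA3, h14]
    unfold qf at hqf
    field_simp
    linear_combination hqf - (x ^ q ^ 2 * x ^ q ^ 3) * h2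
  · refine ⟨x, hx, ?_⟩
    rw [hA]
    field_simp

/-- The number of solutions of a `q`-polynomial equation. -/
theorem sol5 [Fintype E] [DecidableEq E] (hq : 1 < q) (c0 c1 c2 c3 c4 c5 t : E) (hc : c5 ≠ 0) :
    (Finset.univ.filter (fun x : E => c5 * x ^ q ^ 5 + c4 * x ^ q ^ 4 + c3 * x ^ q ^ 3 +
      c2 * x ^ q ^ 2 + c1 * x ^ q + c0 * x + t = 0)).card ≤ q ^ 5 := by
  classical
  let p0 : E[X] := C c4 * X ^ q ^ 4 + C c3 * X ^ q ^ 3 + C c2 * X ^ q ^ 2 + C c1 * X ^ q +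
    C c0 * X + C t
  let p : E[X] := C c5 * X ^ q ^ 5 + p0
  have hmono : ∀ {i j : ℕ}, i ≤ j → q ^ i ≤ q ^ j := fun hij => Nat.pow_le_pow_right (by omega) hij
  have hlow : p0.natDegree ≤ q ^ 4 := by
    refine (natDegree_add_le _ _).trans (max_le ((natDegree_add_le _ _).trans (max_le
      ((natDegree_add_le _ _).trans (max_le ((natDegree_add_le _ _).trans (max_le
      ((natDegree_add_le _ _).trans (max_le ?_ ?_)) ?_)) ?_)) ?_)) ?_)
    · exact natDegree_C_mul_X_pow_le _ _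
    · exact (natDegree_C_mul_X_pow_le _ _).trans (hmono (by norm_num))
    · exact (natDegree_C_mul_X_pow_le _ _).trans (hmono (by norm_num))
    · refine (natDegree_C_mul_X_pow_le _ _).trans ?_
      calc q = q ^ 1 := (pow_one q).symm
        _ ≤ q ^ 4 := hmono (by norm_num)
    · refine (natDegree_C_mul_le _ _).trans ?_
      rw [natDegree_X]
      exact Nat.one_le_pow _ _ (by omega)
    · rw [natDegree_C]; omega
  have hlt : q ^ 4 < q ^ 5 := Nat.pow_lt_pow_right hq (by norm_num)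
  have hp : p ≠ 0 := by
    intro hp0
    have := congrArg (fun r => coeff r (q ^ 5)) hp0
    simp only [p, coeff_add, coeff_C_mul_X_pow, coeff_zero, if_true] at this
    rw [coeff_eq_zero_of_natDegree_lt (hlow.trans_lt hlt), add_zero] at this
    exact hc this
  have hdeg : p.natDegree ≤ q ^ 5 := by
    refine (natDegree_add_le _ _).trans (max_le ?_ ?_)
    · exact natDegree_C_mul_X_pow_le _ _
    · exact hlow.trans hlt.le
  have hsubset : (Finset.univ.filter (fun x : E => c5 * x ^ q ^ 5 + c4 * x ^ q ^ 4 +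
      c3 * x ^ q ^ 3 + c2 * x ^ q ^ 2 + c1 * x ^ q + c0 * x + t = 0)) ⊆ p.roots.toFinset := by
    intro x hx
    have hx' := (Finset.mem_filter.mp hx).2
    rw [Multiset.mem_toFinset, mem_roots hp, IsRoot.def]
    simp only [p, p0, eval_add, eval_mul, eval_pow, eval_X, eval_C]
    linear_combination hx'
  calc _ ≤ p.roots.toFinset.card := Finset.card_le_card hsubset
    _ ≤ Multiset.card p.roots := Multiset.toFinset_card_le _
    _ ≤ p.natDegree := card_roots' p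
    _ ≤ q ^ 5 := hdeg

end H41G4
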