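import Pool.Agent.H41.G4.Letter

/-!
Words in the letters.
-/

namespace H41G4

open Polynomial Matrix

variable {E : Type*} [Field E] {q : ℕ}

/-- The numerator of the word `∏ s (a i) * s (b i)⁻¹`. -/
noncomputable def wp (q : ℕ) (a b : ℕ → E) : ℕ → Matrix (Fin 4) (Fin 4) E[X]
  | 0 => 1
  | n + 1 => wp q a b n * (sm q (a n) * tm q (b n))

/-- The numerator of the inverse word. -/
noncomputable def wr (q : ℕ) (a b : ℕ → E) : ℕ → Matrix (Fin 4) (Fin 4) E[X]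
  | 0 => 1
  | n + 1 => (sm q (b n) * tm q (a n)) * wr q a b n

theorem wp_gr (h : Fr E q) (a b : ℕ → E) (n : ℕ) : Gr q (wp q a b n) := by
  induction n with
  | zero => exact gr_one h
  | succ n ih => exact ih.mul h ((sm_gr h _).mul h (tm_gr h _))

theorem wp_deg (a b : ℕ → E) (n : ℕ) (i j : Fin 4) : (wp q a b n i j).natDegree ≤ 4 * n := by
  induction n generalizing i j with
  | zero =>
    simp only [wp, Matrix.one_apply]
    split_ifs <;> simp
  | succ n ih =>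
    have h3 := natDegree_mul_le' (sm_deg (q := q) (a n)) (tm_deg (q := q) (b n))
    exact natDegree_mul_le' ih h3 i j

theorem wp_det (h : Fr E q) (h2 : (2 : E) = 0) (a b : ℕ → E) (ha : ∀ i, Good q (a i))
    (hb : ∀ i, Good q (b i)) (n : ℕ) : (wp q a b n).det = (1 + X ^ 4) ^ (4 * n) := by
  induction n with
  | zero => simp [wp]
  | succ n ih =>
    simp only [wp]
    rw [Matrix.det_mul, Matrix.det_mul, ih, sm_det h2 _ (ha n), tm_det h h2 _ (hb n)]
    ring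

theorem wp_wr (h : Fr E q) (h2 : (2 : E) = 0) (a b : ℕ → E) (ha : ∀ i, Good q (a i))
    (hb : ∀ i, Good q (b i)) (n : ℕ) :
    wp q a b n * wr q a b n = ((1 + X ^ 4) ^ (2 * n) : E[X]) • 1 := by
  induction n with
  | zero => simp [wp, wr]
  | succ n ih =>
    simp only [wp, wr]
    calc wp q a b n * (sm q (a n) * tm q (b n)) * (sm q (b n) * tm q (a n) * wr q a b n)
        = wp q a b n * (sm q (a n) * (tm q (b n) * sm q (b n)) * tm q (a n)) * wr q a b n := by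
          simp only [Matrix.mul_assoc]
      _ = ((1 + X ^ 4) * (1 + X ^ 4) : E[X]) • (wp q a b n * wr q a b n) := by
          rw [tm_sm_self h h2 _ (hb n)]
          simp only [Matrix.mul_smul, Matrix.smul_mul, Matrix.mul_one]
          rw [sm_tm_self h h2 _ (ha n)]
          simp only [Matrix.mul_smul, Matrix.smul_mul, Matrix.mul_one, smul_smul]
      _ = _ := by
          rw [ih, smul_smul]
          ring_nf

theorem rv_wp (h : Fr E q) (h2 : (2 : E) = 0) (a b : ℕ → E) (ha : ∀ i, Good q (a i))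
    (hb : ∀ i, Good q (b i)) (n : ℕ) :
    rv h (4 * n) (wp q a b n) * um E q = um E q * wr q a b n := by
  induction n with
  | zero =>
    have : rv h (4 * 0) (wp q a b 0) = 1 := by
      ext1 i j
      simp only [rv, wp, Matrix.one_apply]
      by_cases hij : i = j
      · subst hij
        have := reflect_C (1 : E) 0
        rw [C_1, pow_zero, mul_one] at this
        simp [this]
      · rw [if_neg hij, if_neg (fun h => hij h.symm)]
        simp
    rw [this, Matrix.one_mul]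
    simp [wr]
  | succ n ih =>
    simp only [wp, wr]
    have h3 := natDegree_mul_le' (sm_deg (q := q) (a n)) (tm_deg (q := q) (b n))
    rw [show 4 * (n + 1) = 4 * n + (1 + 3) by ring, rv_mul h (wp_deg a b n) h3,
      show 1 + 3 = 4 from rfl, Matrix.mul_assoc, ih, ← Matrix.mul_assoc,
      rv_pair h h2 _ _ (ha n) (hb n), Matrix.mul_assoc]

/-- All `2 × 2` minors are divisible by `d`. -/
def D2 {R : Type*} [CommRing R] (d : R) (A : Matrix (Fin 4) (Fin 4) R) : Prop :=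
  ∀ i i' j j', d ∣ A i j * A i' j' - A i j' * A i' j

theorem D2.one {R : Type*} [CommRing R] (A : Matrix (Fin 4) (Fin 4) R) : D2 1 A :=
  fun _ _ _ _ => one_dvd _

theorem minor_mul {R : Type*} [CommRing R] (A B : Matrix (Fin 4) (Fin 4) R) (i i' j j' : Fin 4) :
    (A * B) i j * (A * B) i' j' - (A * B) i j' * (A * B) i' j =
      (A i 0 * A i' 1 - A i 1 * A i' 0) * (B 0 j * B 1 j' - B 0 j' * B 1 j) +
      (A i 0 * A i' 2 - A i 2 * A i' 0) * (B 0 j * B 2 j' - B 0 j' * B 2 j) +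
      (A i 0 * A i' 3 - A i 3 * A i' 0) * (B 0 j * B 3 j' - B 0 j' * B 3 j) +
      (A i 1 * A i' 2 - A i 2 * A i' 1) * (B 1 j * B 2 j' - B 1 j' * B 2 j) +
      (A i 1 * A i' 3 - A i 3 * A i' 1) * (B 1 j * B 3 j' - B 1 j' * B 3 j) +
      (A i 2 * A i' 3 - A i 3 * A i' 2) * (B 2 j * B 3 j' - B 2 j' * B 3 j) := by
  simp only [Matrix.mul_apply, Fin.sum_univ_four]
  ring

theorem D2.mul {R : Type*} [CommRing R] {d d' : R} {A B : Matrix (Fin 4) (Fin 4) R}
    (hA : D2 d A) (hB : D2 d' B) : D2 (d * d') (A * B) := by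
  intro i i' j j'
  rw [minor_mul]
  exact dvd_add (dvd_add (dvd_add (dvd_add (dvd_add (mul_dvd_mul (hA _ _ _ _) (hB _ _ _ _))
    (mul_dvd_mul (hA _ _ _ _) (hB _ _ _ _))) (mul_dvd_mul (hA _ _ _ _) (hB _ _ _ _)))
    (mul_dvd_mul (hA _ _ _ _) (hB _ _ _ _))) (mul_dvd_mul (hA _ _ _ _) (hB _ _ _ _)))
    (mul_dvd_mul (hA _ _ _ _) (hB _ _ _ _))

theorem D2.of_prop {R : Type*} [CommRing R] {d : R} {A : Matrix (Fin 4) (Fin 4) R}
    (μ v : Fin 4 → R) (h : ∀ i j, d ∣ A i j - μ i * v j) : D2 d A := by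
  choose c hc using h
  intro i i' j j'
  have e : ∀ i j, A i j = μ i * v j + d * c i j := fun i j => by
    linear_combination hc i j
  rw [e, e, e, e]
  exact ⟨μ i * v j * c i' j' + c i j * μ i' * v j' + d * c i j * c i' j' -
    (μ i * v j' * c i' j + c i j' * μ i' * v j + d * c i j' * c i' j), by ring⟩

theorem tm_D2 (h : Fr E q) (h2 : (2 : E) = 0) (b : E) (hb : Good q b) :
    D2 (1 + X ^ 4 : E[X]) (tm q b) := by
  have hs := sm_tm_self h h2 b hb
  set t := tm q b with ht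
  have b0 := hb.ne
  have h2' : (2 : E[X]) = 0 := two_poly h2
  have inv : ∀ (c : E), c ≠ 0 → (C c : E[X]) * C c⁻¹ = 1 := fun c hc => by
    rw [← C_mul, mul_inv_cancel₀ hc, C_1]
  -- the rows
  have r0 : ∀ j, C (b ^ q)⁻¹ * t 0 j + C b * X * t 1 j =
      (1 + X ^ 4) * (1 : Matrix (Fin 4) (Fin 4) E[X]) 0 j := by
    intro j
    have := congrFun (congrFun hs 0) j
    rw [Matrix.mul_apply, Fin.sum_univ_four, sm_eq, Matrix.smul_apply, smul_eq_mul] at this
    rw [← this]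
    simp
  have r1 : ∀ j, C (((b ^ q)⁻¹) ^ q ^ 2) * t 1 j + C (b ^ q ^ 2) * X * t 2 j =
      (1 + X ^ 4) * (1 : Matrix (Fin 4) (Fin 4) E[X]) 1 j := by
    intro j
    have := congrFun (congrFun hs 1) j
    rw [Matrix.mul_apply, Fin.sum_univ_four, sm_eq, Matrix.smul_apply, smul_eq_mul] at this
    rw [← this]
    simp
  have r2 : ∀ j, C (((b ^ q)⁻¹) ^ q ^ 4) * t 2 j + C (b ^ q ^ 4) * X * t 3 j =
      (1 + X ^ 4) * (1 : Matrix (Fin 4) (Fin 4) E[X]) 2 j := by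
    intro j
    have := congrFun (congrFun hs 2) j
    rw [Matrix.mul_apply, Fin.sum_univ_four, sm_eq, Matrix.smul_apply, smul_eq_mul] at this
    rw [← this]
    simp
  have c0 : ((b ^ q)⁻¹ : E) ≠ 0 := inv_ne_zero (pow_ne_zero _ b0)
  have c1 : (((b ^ q)⁻¹) ^ q ^ 2 : E) ≠ 0 := pow_ne_zero _ c0
  have c2 : (((b ^ q)⁻¹) ^ q ^ 4 : E) ≠ 0 := pow_ne_zero _ c0
  set a0 : E := (b ^ q)⁻¹
  set a1 : E := a0 ^ q ^ 2
  set a2 : E := a0 ^ q ^ 4
  set m0 : E[X] := C a0⁻¹ * (C b * X)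
  set m1 : E[X] := C a1⁻¹ * (C (b ^ q ^ 2) * X)
  set m2 : E[X] := C a2⁻¹ * (C (b ^ q ^ 4) * X)
  have s0 : ∀ j, (1 + X ^ 4 : E[X]) ∣ t 0 j - m0 * t 1 j := fun j =>
    ⟨C a0⁻¹ * (1 : Matrix (Fin 4) (Fin 4) E[X]) 0 j, by
      linear_combination C a0⁻¹ * r0 j - t 0 j * inv a0 c0 - (m0 * t 1 j) * h2'⟩
  have s1 : ∀ j, (1 + X ^ 4 : E[X]) ∣ t 1 j - m1 * t 2 j := fun j =>
    ⟨C a1⁻¹ * (1 : Matrix (Fin 4) (Fin 4) E[X]) 1 j, by
      linear_combination C a1⁻¹ * r1 j - t 1 j * inv a1 c1 - (m1 * t 2 j) * h2'⟩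
  have s2 : ∀ j, (1 + X ^ 4 : E[X]) ∣ t 2 j - m2 * t 3 j := fun j =>
    ⟨C a2⁻¹ * (1 : Matrix (Fin 4) (Fin 4) E[X]) 2 j, by
      linear_combination C a2⁻¹ * r2 j - t 2 j * inv a2 c2 - (m2 * t 3 j) * h2'⟩
  apply D2.of_prop ![m0 * (m1 * m2), m1 * m2, m2, 1] (fun j => t 3 j)
  intro i j
  fin_cases i
  · have : t 0 j - m0 * (m1 * m2) * t 3 j = (t 0 j - m0 * t 1 j) + m0 * ((t 1 j - m1 * t 2 j) +
        m1 * (t 2 j - m2 * t 3 j)) := by ring
    simp only [Fin.zero_eta, Matrix.cons_val_zero]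
    rw [this]
    exact dvd_add (s0 j) ((dvd_add (s1 j) ((s2 j).mul_left _)).mul_left _)
  · have : t 1 j - (m1 * m2) * t 3 j = ((t 1 j - m1 * t 2 j) + m1 * (t 2 j - m2 * t 3 j)) := by
      ring
    simp only [Fin.mk_one, Matrix.cons_val_one, Matrix.cons_val_zero]
    rw [this]
    exact (dvd_add (s1 j) ((s2 j).mul_left _))
  · simpa using s2 j
  · simp

theorem wp_D2 (h : Fr E q) (h2 : (2 : E) = 0) (a b : ℕ → E) (hb : ∀ i, Good q (b i)) (n : ℕ) :
    D2 ((1 + X ^ 4) ^ n : E[X]) (wp q a b n) := by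
  induction n with
  | zero =>
    rw [pow_zero]
    exact D2.one _
  | succ n ih =>
    simp only [wp]
    have := ih.mul ((D2.one (sm q (a n))).mul (tm_D2 h h2 _ (hb n)))
    rw [one_mul, ← pow_succ] at this
    exact this

/-- The sum of the principal minors of order two. -/
def e2 {R : Type*} [CommRing R] (A : Matrix (Fin 4) (Fin 4) R) : R :=
  (A 0 0 * A 1 1 - A 0 1 * A 1 0) + (A 0 0 * A 2 2 - A 0 2 * A 2 0) +
  (A 0 0 * A 3 3 - A 0 3 * A 3 0) + (A 1 1 * A 2 2 - A 1 2 * A 2 1) +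
  (A 1 1 * A 3 3 - A 1 3 * A 3 1) + (A 2 2 * A 3 3 - A 2 3 * A 3 2)

theorem D2.e2 {R : Type*} [CommRing R] {d : R} {A : Matrix (Fin 4) (Fin 4) R} (hA : D2 d A) :
    d ∣ e2 A :=
  dvd_add (dvd_add (dvd_add (dvd_add (dvd_add (hA _ _ _ _) (hA _ _ _ _)) (hA _ _ _ _))
    (hA _ _ _ _)) (hA _ _ _ _)) (hA _ _ _ _)

theorem det4_sub {R : Type*} [CommRing R] (A : Matrix (Fin 4) (Fin 4) R) (z : R) :
    (A - z • (1 : Matrix (Fin 4) (Fin 4) R)).det =
      A.det - z * A.adjugate.trace + z ^ 2 * e2 A - z ^ 3 * A.trace + z ^ 4 := by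
  have e : ∀ B : Matrix (Fin 4) (Fin 4) R, B = !![B 0 0, B 0 1, B 0 2, B 0 3;
      B 1 0, B 1 1, B 1 2, B 1 3; B 2 0, B 2 1, B 2 2, B 2 3; B 3 0, B 3 1, B 3 2, B 3 3] := by
    intro B
    ext i j
    fin_cases i <;> fin_cases j <;> rfl
  have h1 : (A - z • (1 : Matrix (Fin 4) (Fin 4) R)) = !![A 0 0 - z, A 0 1, A 0 2, A 0 3;
      A 1 0, A 1 1 - z, A 1 2, A 1 3; A 2 0, A 2 1, A 2 2 - z, A 2 3;
      A 3 0, A 3 1, A 3 2, A 3 3 - z] := by
    ext i j
    fin_cases i <;> fin_cases j <;> simp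
  have h2 : A.adjugate.trace = ∑ i : Fin 4, (A.submatrix i.succAbove i.succAbove).det := by
    rw [Matrix.trace]
    apply Finset.sum_congr rfl
    intro i _
    rw [Matrix.diag_apply, Matrix.adjugate_fin_succ_eq_det_submatrix]
    rw [← two_mul, pow_mul]
    simp
  rw [h1, h2]
  simp only [Fin.sum_univ_four, Matrix.det_fin_three, Matrix.submatrix_apply]
  have s0 : (Fin.succAbove (0 : Fin 4)) = ![1, 2, 3] := by decide
  have s1 : (Fin.succAbove (1 : Fin 4)) = ![0, 2, 3] := by decide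
  have s2 : (Fin.succAbove (2 : Fin 4)) = ![0, 1, 3] := by decide
  have s3 : (Fin.succAbove (3 : Fin 4)) = ![0, 1, 2] := by decide
  simp only [s0, s1, s2, s3]
  have h3 : A.det = (!![A 0 0, A 0 1, A 0 2, A 0 3;
      A 1 0, A 1 1, A 1 2, A 1 3; A 2 0, A 2 1, A 2 2, A 2 3; A 3 0, A 3 1, A 3 2, A 3 3]).det := by
    rw [← e A]
  rw [h3, Matrix.trace, H41G4.e2]
  simp [Matrix.det_succ_row_zero, Fin.sum_univ_succ, Fin.succAbove]
  ring

/-- The determinant of a word minus a scalar. -/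
theorem det_word (h : Fr E q) (h2 : (2 : E) = 0) (a b : ℕ → E) (ha : ∀ i, Good q (a i))
    (hb : ∀ i, Good q (b i)) (n : ℕ) : ((1 + X ^ 4) ^ (3 * n) : E[X]) ∣
      (wp q a b n - ((1 + X ^ 4) ^ n : E[X]) • (1 : Matrix (Fin 4) (Fin 4) E[X])).det := by
  set z : E[X] := (1 + X ^ 4) ^ n with hz
  have z0 : z ≠ 0 := pow_ne_zero _ one_add_ne
  have hd : (wp q a b n).det = z ^ 4 := by rw [wp_det h h2 a b ha hb, hz, ← pow_mul, mul_comm]
  have hw : wp q a b n * wr q a b n = (z ^ 2) • 1 := by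
    rw [wp_wr h h2 a b ha hb, hz, ← pow_mul, mul_comm 2 n]
  have hadj : (wp q a b n).adjugate = (z ^ 2) • wr q a b n := by
    have h1 : (wp q a b n).adjugate * wp q a b n * wr q a b n = (z ^ 4) • wr q a b n := by
      rw [Matrix.adjugate_mul, hd, Matrix.smul_mul, Matrix.one_mul]
    rw [Matrix.mul_assoc, hw, Matrix.mul_smul, Matrix.mul_one] at h1
    ext1 i j
    have h2 := congrFun (congrFun h1 i) j
    simp only [Matrix.smul_apply, smul_eq_mul] at h2 ⊢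
    apply mul_left_cancel₀ (pow_ne_zero 2 z0)
    rw [h2]
    ring
  obtain ⟨c, hc⟩ := (wp_D2 h h2 a b hb n).e2
  rw [← hz] at hc
  have : (1 + X ^ 4 : E[X]) ^ (3 * n) = z ^ 3 := by rw [hz, ← pow_mul, mul_comm]
  rw [this, det4_sub, hd, hadj, Matrix.trace_smul, smul_eq_mul, hc]
  exact ⟨z - (wr q a b n).trace + c - (wp q a b n).trace + z, by ring⟩

end H41G4
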